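import Pool.Agent.H57.BRA.Def

/-!
# [H57 BRA FRO] one Frobenius element for all homomorphisms, 60-120 lines. File Pool/Agent/H57/BRA/Fro.lean

`com2` (`K` contains a primitive root of unity `z` of order `p ^ 2`): let `F` satisfy the Frobenius congruence at `L.P` and `φ` be of finite type with `φ τ ^ (p ^ 2) = 1` on the inertia group
`I` of `L.P`. Then `φ F`, `φ t` commute. Proof: `χ : Γ → Multiplicative (ZMod (p ^ 2))` (or any finite commutative group, e.g. the group of `z`-powers), the character of a root `B`, `B ^ (p ^ 2) = π` in `Ω`: `σ B = z ^ χ(σ) B`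
(a homomorphism of finite type because `z ∈ K`; choose `B ^ p = L.w`, possible because `Ω` is algebraically closed). `ψ = (φ, χ)` is of finite type, `ψ(I)` has exponent dividing `p ^ 2`, so it is a `p`-group, its order is
prime to `v`, and `H38.BG.cyc` (Pool/Agent/H38/BG/TCyc.lean) gives `τ1 ∈ I` with `ψ(I) ⊆ zpowers (ψ τ1)`. `ψ t = ψ τ1 ^ j`; `χ(t)` is a generator of `ZMod (p ^ 2)` because `t (B ^ p) = t L.w = ζ B ^ p` (so `z ^ (p χ(t)) = ζ ≠ 1`: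
`χ(t)` is a unit), so `j` is prime to `p` and `ψ t` generates `ψ(I)` (a cyclic `p`-group). `F t F⁻¹ ∈ I` (`F` maps `L.P` to itself, as in GFrob / TFrob), so `ψ (F t F⁻¹) = ψ t ^ i`; `χ (F t F⁻¹) = χ t` and `χ t` is a
unit of `ZMod (p ^ 2)`, so `i ≡ 1 mod p ^ 2` and `φ (F t F⁻¹) = φ t ^ i = φ t` by `φ t ^ (p ^ 2) = 1`.
`frob_univ`: copy the proof of `H38.BG.tfrob` (Pool/Agent/H38/BG/TFrob.lean): the element `F = (t ^ j)⁻¹ * F0` constructed there does not depend on `φ` and `a`. So first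
construct `F` (`F x ≡ x ^ nm v mod P`, `F w = w`), then `kk a F = lgv p ζ v π a` for every `a : Kˣ` (same proof as there), then for every `φ` the commutation (`com2`).
`isFr_of` (with `com2` for the last part): `Fr : FR L` gives `IsFr` (`lgv p ζ v (D.pi v) = D.LL v` by definition, `inr L v = (L.ld v hv).P.inertia _` and `L.t v = (L.ld v hv).t` by `dif_pos`).
`exists_FR`: choice over `v ∉ S0` from `frob_univ` (`¬ Above p v` by `D.above`, `D.pi_self`), `F v = 1` for `v ∈ S0`.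
-/

set_option autoImplicit false

open scoped NumberField Pointwise
open IsDedekindDomain

noncomputable section

namespace H57.BRA

open H63.MA H38.BB H38.BG H57.PC

variable {K : Type} [Field K] [NumberField K] {Ω : Type} [Field Ω] [Algebra K Ω] [IsAlgClosure K Ω]
  {p : ℕ} {ζ : K}

/-- the version with exponent `p`, for every `K` -/
theorem frob_univ1 (hp : p.Prime) (hζ : IsPrimitiveRoot ζ p) {v : Pl K} (hv : ¬ Above p v) {π : Kˣ}
    (hπ : ord v π = 1) (L : LD p ζ Ω v π) : ∃ F : Gal(Ω/K), F L.w = L.w ∧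
      (∀ x : 𝓞 Ω, F • x - x ^ nm v ∈ L.P) ∧ (∀ a : Kˣ, kk p ζ a F = lgv p ζ v π a) ∧
      ∀ (G : Type) [Group G] [Finite G] (φ : Gal(Ω/K) →* G), H38.ML.FT φ →
        (∀ τ ∈ L.P.inertia Gal(Ω/K), φ τ ^ p = 1) → φ F * φ L.t = φ L.t * φ F := by
  have : NeZero p := ⟨hp.ne_zero⟩
  obtain ⟨F0, hF0⟩ := gfrob_ex L.P L.prime L.under
  set j : ℕ := (kk p ζ π F0).val with hj
  have ht1 : kk p ζ π L.t = 1 := by
    have := kk_of_root hp hζ π L.w L.hw L.t 1 (by rw [zpow_one]; exact L.act)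
    rw [this, Int.cast_one]
  have htj : (L.t ^ j)⁻¹ ∈ L.P.inertia Gal(Ω/K) := inv_mem (pow_mem L.ht j)
  set F : Gal(Ω/K) := (L.t ^ j)⁻¹ * F0 with hFdef
  have hF : ∀ x : 𝓞 Ω, F • x - x ^ nm v ∈ L.P := by
    intro x
    have h1 : F • x - x ^ nm v = ((L.t ^ j)⁻¹ • (F0 • x) - F0 • x) + (F0 • x - x ^ nm v) := by
      rw [hFdef, mul_smul]
      ring
    rw [h1]
    exact L.P.add_mem (htj (F0 • x)) (hF0 x)
  have hkkF : kk p ζ π F = 0 := by
    have h1 : kk p ζ π F = -(j * kk p ζ π L.t) + kk p ζ π F0 := by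
      unfold kk
      rw [hFdef, map_mul, map_inv, map_pow, toAdd_mul, toAdd_inv, toAdd_pow, nsmul_eq_mul]
    rw [h1, ht1, mul_one, hj, ZMod.natCast_zmod_val, neg_add_cancel]
  have hFw : F L.w = L.w := by
    have h1 := kk_root hp hζ π L.w L.hw F
    rw [hkkF, ZMod.val_zero, pow_zero, one_mul] at h1
    exact h1
  have hnm : 0 < nm v := lt_trans Nat.zero_lt_one (one_lt_nm v)
  have hFP : ∀ y ∈ L.P, F • y ∈ L.P := by
    intro y hy
    have h1 := L.P.add_mem (hF y) (L.P.pow_mem_of_mem hy (nm v) hnm)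
    rwa [sub_add_cancel] at h1
  have hconj : F * L.t * F⁻¹ ∈ L.P.inertia Gal(Ω/K) := by
    intro x
    have h1 : (F * L.t * F⁻¹) • x - x = F • (L.t • (F⁻¹ • x) - F⁻¹ • x) := by
      rw [smul_sub, mul_smul, mul_smul, smul_inv_smul]
    rw [h1]
    exact hFP _ (L.ht (F⁻¹ • x))
  have hδ : F * L.t * F⁻¹ * L.t⁻¹ ∈ L.P.inertia Gal(Ω/K) := mul_mem hconj (inv_mem L.ht)
  have hFinv : F⁻¹ L.w = L.w := by
    have h1 : F⁻¹ (F L.w) = L.w := AlgEquiv.symm_apply_apply F L.w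
    rwa [hFw] at h1
  have htinv : L.t⁻¹ L.w = algebraMap K Ω ζ⁻¹ * L.w := by
    have hζ0 : ζ ≠ 0 := hζ.ne_zero hp.ne_zero
    have h1 : L.t⁻¹ (L.t L.w) = L.w := AlgEquiv.symm_apply_apply L.t L.w
    rw [L.act, map_mul, AlgEquiv.commutes] at h1
    have h2 : algebraMap K Ω ζ ≠ 0 := (map_ne_zero _).2 hζ0
    rw [map_inv₀, eq_inv_mul_iff_mul_eq₀ h2]
    exact h1
  have hδw : (F * L.t * F⁻¹ * L.t⁻¹) L.w = L.w := by
    have hζ0 : ζ ≠ 0 := hζ.ne_zero hp.ne_zero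
    show F (L.t (F⁻¹ (L.t⁻¹ L.w))) = L.w
    rw [htinv, map_mul F⁻¹, AlgEquiv.commutes F⁻¹, hFinv, map_mul L.t, AlgEquiv.commutes L.t,
      L.act, ← mul_assoc, ← map_mul (algebraMap K Ω), inv_mul_cancel₀ hζ0, map_one, one_mul, hFw]
  have hkδ : kk p ζ π (F * L.t * F⁻¹ * L.t⁻¹) = 0 := by
    have h1 := kk_of_root hp hζ π L.w L.hw (F * L.t * F⁻¹ * L.t⁻¹) 0
      (by rw [zpow_zero, one_mul]; exact hδw)
    rw [h1, Int.cast_zero]
  refine ⟨F, hFw, hF, ?_, ?_⟩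
  · intro a
    unfold lgv
    rw [← gfrob_unit hp hζ hv L.P L.prime L.under F hF (a * π ^ (-ord v a)) (by
      rw [ord_mul, ord_zpow, hπ]
      ring), kk_mul_arg hp hζ, kk_zpow_arg hp hζ, hkkF, mul_zero, add_zero]
  · intro G _ _ φ hφ he
    have hφδ := tm hp hζ hv hπ L φ hφ he _ hδ
    rw [hkδ, ZMod.val_zero, pow_zero] at hφδ
    rw [map_mul, map_mul, map_mul, map_inv, map_inv] at hφδ
    have h1 := mul_inv_eq_one.1 hφδ
    rw [mul_inv_eq_iff_eq_mul] at h1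
    exact h1

omit [NumberField K] in
/-- the character of a root of order `N`, for `K` with a primitive root of unity of order `N` -/
theorem com2_chi {N : ℕ} [NeZero N] {z : K} (hz : IsPrimitiveRoot z N) {B : Ω} (hB0 : B ≠ 0)
    {c : K} (hB : B ^ N = algebraMap K Ω c) : ∃ χ : Gal(Ω/K) →* rootsOfUnity N Ω,
      H38.ML.FT χ ∧ ∀ σ, σ B = (((χ σ : rootsOfUnity N Ω) : Ωˣ) : Ω) * B := by
  have hzΩ : IsPrimitiveRoot (algebraMap K Ω z) N := hz.map_of_injective (algebraMap K Ω).injective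
  have h1 : ∀ σ : Gal(Ω/K), (σ B / B) ^ N = 1 := by
    intro σ
    rw [div_pow, ← map_pow, hB, AlgEquiv.commutes, ← hB, div_self (pow_ne_zero _ hB0)]
  have hfix : ∀ (x : Ω), x ^ N = 1 → ∀ σ : Gal(Ω/K), σ x = x := by
    intro x hx σ
    obtain ⟨i, -, hi⟩ := hzΩ.eq_pow_of_pow_eq_one hx
    rw [← hi, ← map_pow, AlgEquiv.commutes]
  have h2 : ∀ σ : Gal(Ω/K), σ B / B * B = σ B := fun σ => div_mul_cancel₀ _ hB0
  let χ : Gal(Ω/K) →* rootsOfUnity N Ω := MonoidHom.mk' (fun σ => rootsOfUnity.mkOfPowEq _ (h1 σ))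
    (by
      intro σ τ
      apply Subtype.ext
      apply Units.ext
      show (σ * τ) B / B = σ B / B * (τ B / B)
      have h3 : (σ * τ) B = σ B / B * (τ B / B) * B := by
        rw [AlgEquiv.mul_apply, ← h2 τ, map_mul, hfix _ (h1 τ) σ, div_mul_cancel₀ _ hB0]
        rw [mul_assoc, mul_comm (τ B / B) B, ← mul_assoc, h2 σ, mul_comm]
      rw [h3, mul_div_assoc, div_self hB0, mul_one])
  refine ⟨χ, ?_, fun σ => ?_⟩
  · have halg : Algebra.IsAlgebraic K Ω := IsAlgClosure.isAlgebraic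
    refine ⟨IntermediateField.adjoin K {B}, IntermediateField.adjoin.finiteDimensional
      (halg.isAlgebraic B).isIntegral, fun σ hσ => ?_⟩
    rw [IntermediateField.mem_fixingSubgroup_iff] at hσ
    have h3 : σ B = B := hσ B (IntermediateField.mem_adjoin_simple_self K B)
    rw [MonoidHom.mem_ker]
    apply Subtype.ext
    apply Units.ext
    show σ B / B = 1
    rw [h3, div_self hB0]
  · show σ B = σ B / B * B
    rw [h2]

theorem com2 (hp : p.Prime) (hζ : IsPrimitiveRoot ζ p) (hz : Z2 p K) {v : Pl K}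
    (hv : ¬ Above p v) {π : Kˣ} (hπ : ord v π = 1) (L : LD p ζ Ω v π) {F : Gal(Ω/K)}
    (hF : ∀ x : 𝓞 Ω, F • x - x ^ nm v ∈ L.P) {G : Type} [Group G] [Finite G]
    (φ : Gal(Ω/K) →* G) (hφ : H38.ML.FT φ)
    (he : ∀ τ ∈ L.P.inertia Gal(Ω/K), φ τ ^ (p ^ 2) = 1) : φ F * φ L.t = φ L.t * φ F := by
  obtain ⟨z, hz⟩ := hz
  have hp0 : NeZero p := ⟨hp.ne_zero⟩
  have hpf : Fact p.Prime := ⟨hp⟩
  have hN0 : NeZero (p ^ 2) := ⟨pow_ne_zero _ hp.ne_zero⟩
  have hcl : IsAlgClosed Ω := IsAlgClosure.isAlgClosed K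
  obtain ⟨B, hB⟩ := IsAlgClosed.exists_pow_nat_eq L.w hp.pos
  have hw0 : L.w ≠ 0 := gkum_ne hp π L.w L.hw
  have hB0 : B ≠ 0 := by
    intro h
    rw [h, zero_pow hp.ne_zero] at hB
    exact hw0 hB.symm
  have hB2 : B ^ (p ^ 2) = algebraMap K Ω (π : K) := by
    rw [pow_two, pow_mul, hB, L.hw]
  obtain ⟨χ, hχ1, hχ2⟩ := com2_chi hz hB0 hB2
  -- the order of the value at `t`
  have hχt : (χ L.t) ^ p ≠ 1 := by
    intro h
    have h1 : L.t (B ^ p) = B ^ p := by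
      rw [map_pow, hχ2 L.t, mul_pow]
      have h2 : (((χ L.t : rootsOfUnity (p ^ 2) Ω) : Ωˣ) : Ω) ^ p = 1 := by
        have h3 := congrArg (fun x : rootsOfUnity (p ^ 2) Ω => ((x : Ωˣ) : Ω)) h
        simpa using h3
      rw [h2, one_mul]
    rw [hB, L.act] at h1
    have h4 : algebraMap K Ω ζ = 1 := mul_right_cancel₀ hw0 (by rw [h1, one_mul])
    have h5 : ζ = 1 := (algebraMap K Ω).injective (by rw [h4, map_one])
    exact hζ.ne_one hp.one_lt h5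
  have hall : ∀ x : rootsOfUnity (p ^ 2) Ω, x ^ (p ^ 2) = 1 := by
    intro x
    apply Subtype.ext
    exact x.2
  have hordχ : orderOf (χ L.t) = p ^ 2 :=
    orderOf_eq_prime_pow (n := 1) (by rw [pow_one]; exact hχt) (hall _)
  have hfin : Finite (rootsOfUnity (p ^ 2) Ω) := inferInstance
  set ψ : Gal(Ω/K) →* rootsOfUnity (p ^ 2) Ω × G := χ.prod φ with hψ
  have hft : H38.ML.FT ψ := gtame_ft_prod _ _ hχ1 hφ
  have hpow : ∀ σ ∈ L.P.inertia Gal(Ω/K), ψ σ ^ (p ^ 2) = 1 := by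
    intro σ hσ
    have h1 : ψ σ = (χ σ, φ σ) := rfl
    rw [h1, Prod.pow_mk, hall, he σ hσ]
    rfl
  have hpg : IsPGroup p ((L.P.inertia Gal(Ω/K)).map ψ) := by
    rintro ⟨x, hx⟩
    obtain ⟨σ, hσ, rfl⟩ := Subgroup.mem_map.1 hx
    exact ⟨2, Subtype.ext (hpow σ hσ)⟩
  obtain ⟨n, hn⟩ := IsPGroup.iff_card.1 hpg
  have hc : ((Nat.card ((L.P.inertia Gal(Ω/K)).map ψ) : ℕ) : 𝓞 K) ∉ v.asIdeal := by
    rw [hn, Nat.cast_pow]
    intro h
    exact hv (v.isPrime.mem_of_pow_mem n h)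
  obtain ⟨τ₀, hτ₀, hcyc⟩ := cyc v L.P L.prime L.under ψ hft hc
  have hordψ : orderOf (ψ L.t) = p ^ 2 := by
    apply Nat.dvd_antisymm (orderOf_dvd_of_pow_eq_one (hpow L.t L.ht))
    refine hordχ.symm.dvd.trans (orderOf_dvd_of_pow_eq_one ?_)
    have h1 : ψ L.t ^ orderOf (ψ L.t) = 1 := pow_orderOf_eq_one _
    exact congrArg Prod.fst h1
  have hle : Subgroup.zpowers (ψ L.t) ≤ Subgroup.zpowers (ψ τ₀) :=
    (Subgroup.zpowers_le).2 (hcyc L.t L.ht)
  have heq : Subgroup.zpowers (ψ L.t) = Subgroup.zpowers (ψ τ₀) := by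
    apply Subgroup.eq_of_le_of_card_ge hle
    rw [Nat.card_zpowers, Nat.card_zpowers, hordψ]
    exact Nat.le_of_dvd (pow_pos hp.pos 2) (orderOf_dvd_of_pow_eq_one (hpow τ₀ hτ₀))
  -- conjugation by `F`
  have hnm : 0 < nm v := lt_trans Nat.zero_lt_one (one_lt_nm v)
  have hFP : ∀ y ∈ L.P, F • y ∈ L.P := by
    intro y hy
    have h1 := L.P.add_mem (hF y) (L.P.pow_mem_of_mem hy (nm v) hnm)
    rwa [sub_add_cancel] at h1
  have hconj : F * L.t * F⁻¹ ∈ L.P.inertia Gal(Ω/K) := by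
    intro x
    have h1 : (F * L.t * F⁻¹) • x - x = F • (L.t • (F⁻¹ • x) - F⁻¹ • x) := by
      rw [smul_sub, mul_smul, mul_smul, smul_inv_smul]
    rw [h1]
    exact hFP _ (L.ht (F⁻¹ • x))
  have hz1 := hcyc _ hconj
  rw [← heq] at hz1
  obtain ⟨i, hi⟩ := Subgroup.mem_zpowers_iff.1 hz1
  have hi1 : χ L.t ^ i = χ (F * L.t * F⁻¹) := congrArg Prod.fst hi
  have hi2 : φ L.t ^ i = φ (F * L.t * F⁻¹) := congrArg Prod.snd hi
  have hi3 : χ L.t ^ i = χ L.t := by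
    rw [hi1, map_mul, map_mul, map_inv, mul_comm (χ F), mul_inv_cancel_right]
  have hi4 : χ L.t ^ (i - 1) = 1 := by
    rw [zpow_sub, hi3, zpow_one, mul_inv_cancel]
  have hi5 : ((p ^ 2 : ℕ) : ℤ) ∣ i - 1 := by
    have h1 := orderOf_dvd_iff_zpow_eq_one.2 hi4
    exact (congrArg (Nat.cast : ℕ → ℤ) hordχ).symm.dvd.trans h1
  obtain ⟨m, hm⟩ := hi5
  have hi6 : φ L.t ^ (i - 1) = 1 := by
    rw [hm, zpow_mul, zpow_natCast, he L.t L.ht, one_zpow]
  have hi7 : φ L.t ^ i = φ L.t := by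
    have h1 : i = (i - 1) + 1 := by ring
    rw [h1, zpow_add, hi6, one_mul, zpow_one]
  rw [hi7, map_mul, map_mul, map_inv, eq_mul_inv_iff_mul_eq] at hi2
  exact hi2.symm

theorem frob_univ (hp : p.Prime) (hζ : IsPrimitiveRoot ζ p) (hz : Z2 p K) {v : Pl K}
    (hv : ¬ Above p v) {π : Kˣ} (hπ : ord v π = 1) (L : LD p ζ Ω v π) :
    ∃ F : Gal(Ω/K), F L.w = L.w ∧ IsFr L F := by
  obtain ⟨F, h1, h2, h3, -⟩ := frob_univ1 hp hζ hv hπ L
  exact ⟨F, h1, h2, h3, fun G _ _ φ hφ he => com2 hp hζ hz hv hπ L h2 φ hφ he⟩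

theorem isFr_of (hp : p.Prime) (hζ : IsPrimitiveRoot ζ p) (hz : Z2 p K) {D : RD0 K p ζ}
    {L : LDs D Ω} (Fr : FR L) (v : Pl K) (hv : v ∉ D.S0) : IsFr (L.ld v hv) (Fr.F v) :=
  ⟨Fr.fr v hv, fun a => Fr.kf v hv a, fun _ _ _ φ hφ he =>
    com2 hp hζ hz (fun h => hv (D.above v h)) (D.pi_self v hv) (L.ld v hv) (Fr.fr v hv) φ hφ he⟩

theorem exists_FR (hp : p.Prime) (hζ : IsPrimitiveRoot ζ p) {D : RD0 K p ζ} (L : LDs D Ω) :
    Nonempty (FR L) := by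
  classical
  have h0 : ∀ v (hv : v ∉ D.S0), ∃ F : Gal(Ω/K), (∀ x : 𝓞 Ω, F • x - x ^ nm v ∈ (L.ld v hv).P) ∧
      (∀ a : Kˣ, kk p ζ a F = lgv p ζ v (D.pi v) a) ∧
      ∀ (G : Type) [Group G] [Finite G] (φ : Gal(Ω/K) →* G), H38.ML.FT φ →
        (∀ τ ∈ (L.ld v hv).P.inertia Gal(Ω/K), φ τ ^ p = 1) →
          φ F * φ (L.ld v hv).t = φ (L.ld v hv).t * φ F := by
    intro v hv
    obtain ⟨F, -, hF⟩ := frob_univ1 hp hζ (fun h => hv (D.above v h)) (D.pi_self v hv) (L.ld v hv)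
    exact ⟨F, hF⟩
  choose F hF using h0
  have hG : ∀ v (hv : v ∉ D.S0), (if h : v ∉ D.S0 then F v h else 1) = F v hv :=
    fun v hv => dif_pos hv
  refine ⟨⟨fun v => if h : v ∉ D.S0 then F v h else 1, ?_, ?_, ?_⟩⟩
  · intro v hv x
    rw [hG v hv]
    exact (hF v hv).1 x
  · intro v hv a
    rw [hG v hv]
    exact (hF v hv).2.1 a
  · intro v hv H _ _ φ hφ he
    have ht : L.t v = (L.ld v hv).t := dif_pos hv
    have hi : inr L v = (L.ld v hv).P.inertia _ := dif_pos hv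
    rw [hG v hv, ht]
    exact (hF v hv).2.2 H φ hφ (by rw [← hi]; exact he)

end H57.BRA
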