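import Pool.Agent.H57.BRA.Loc

/-!
# [H57 BRA LTR] transitivity on the primes above v, 150-250 lines. File Pool/Agent/H57/BRA/Ltr.lean

`L : LD` at `v ∤ p`, `F` with `IsFr L F`, the tame condition `Tm e ρ L.P`. `P'` another prime of `𝓞 Ω` over `v`.
* `ltr_conj`: `P' = g • L.P` for some `g ∈ Γ` (`Algebra.IsInvariant.exists_smul_of_under_eq_of_profinite`, see `gfrob_ex` in Pool/Agent/H63/MA/GFrob.lean and
  Pool/Agent/H63/KW or search `exists_smul_of_under_eq_of_profinite` for uses). We state it as: `x ∈ P' ↔ g⁻¹ • x ∈ L.P` for all `x`.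
* For `τ' ∈ P'.inertia`: `g⁻¹ τ' g ∈ L.P.inertia`; for `F'` with `FrP P' F'`: `F'' = g⁻¹ F' g` satisfies `FrP L.P F''` with the same `k` (the residue fields: apply to `g⁻¹ • x`;
  both primes are over `v`, the number `absNorm (P.under (𝓞 K))` is `nm v`).
* `ltr_pow`: `FrP L.P F''` with exponent `k` implies `F^(-k) F'' ∈ L.P.inertia`: `F ^ k x ≡ x ^ (nm v ^ k)` by induction (`F` maps `L.P` to itself: `x ∈ P` implies `F x - x ^ nm v ∈ P`), so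
  `F'' x - F^k x ∈ P`, and `F^k y ∈ P` implies `y ^ (nm v ^ k) ∈ P`, so `y ∈ P` (prime): `y = F^(-k) F'' x - x`.
* `Tm e ρ P'`: `ρ τ' = ρ g * ρ (g⁻¹ τ' g) * (ρ g)⁻¹` (`Tm` says only `ρ τ ^ p = 1`).
* `ltr`: `ρ τ = ρ t ^ j` for `τ ∈ L.P.inertia` (`H38.BG.tm`, `j = (kk π τ).val`), `ρ F'' = ρ F ^ k * ρ t ^ j'`. `ρ F`, `ρ t` commute by `hF.2.2`. So `iv (ρ F'') (ρ τ) = k * j * iv (ρ F) (ρ t) + 0`
  by the lemmas of Grp (`iv_mul_left, iv_pow_left, iv_pow_right, iv_self_pow`), and `iv_conj` gives the statement for `F'`, `τ'`. For `ord v a = 0`: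
  `kk a F' = kk a F''` (`kk` is a homomorphism to a commutative group) `= k * kk a F + kk a τ1` with `τ1 ∈ L.P.inertia`, `kk a τ1 = ord v a * kk π τ1 = 0` (`ld_kk`), `kk a F = lgv a = lg a`
  (`lgv p ζ v π a = lg p ζ v (a * π ^ (-ord v a))`, `zpow_zero`).
-/

set_option autoImplicit false

open scoped NumberField Pointwise
open IsDedekindDomain

noncomputable section

namespace H57.BRA

open H63.MA H38.BB H38.BG H57.PC

variable {K : Type} [Field K] [NumberField K] {Ω : Type} [Field Ω] [Algebra K Ω] [IsAlgClosure K Ω]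
  {p : ℕ} {ζ : K}

private theorem ltr0_cont [TopologicalSpace (𝓞 Ω)] [DiscreteTopology (𝓞 Ω)] :
    ContinuousSMul Gal(Ω/K) (𝓞 Ω) := by
  have : IsGalois K Ω := IsAlgClosure.isGalois K Ω
  rw [continuousSMul_iff_stabilizer_isOpen]
  intro x
  have h1 := stabilizer_isOpen_of_isIntegral (K := K) (L := Ω) (x : Ω)
  have h2 : (MulAction.stabilizer Gal(Ω/K) x : Set Gal(Ω/K)) =
      (MulAction.stabilizer Gal(Ω/K) (x : Ω) : Set Gal(Ω/K)) := by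
    ext g
    simp only [SetLike.mem_coe, MulAction.mem_stabilizer_iff]
    constructor
    · intro hg
      exact congrArg (fun z : 𝓞 Ω => (z : Ω)) hg
    · intro hg
      exact NumberField.RingOfIntegers.ext hg
  rw [h2]
  exact h1

private theorem ltr0_inv : Algebra.IsInvariant (𝓞 K) (𝓞 Ω) Gal(Ω/K) := by
  have : IsGalois K Ω := IsAlgClosure.isGalois K Ω
  refine ⟨fun b hb => ?_⟩
  have h1 : (b : Ω) ∈ (⊥ : IntermediateField K Ω) := by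
    rw [← InfiniteGalois.fixedField_bot (k := K) (K := Ω), IntermediateField.mem_fixedField_iff]
    intro g _
    exact congrArg (fun z : 𝓞 Ω => (z : Ω)) (hb g)
  obtain ⟨a, ha⟩ := IntermediateField.mem_bot.1 h1
  have h2 : IsIntegral ℤ a := by
    have h3 : IsIntegral ℤ (algebraMap K Ω a) := by
      rw [ha]
      exact b.2
    exact (isIntegral_algebraMap_iff (algebraMap K Ω).injective).1 h3
  refine ⟨⟨a, h2⟩, NumberField.RingOfIntegers.ext ?_⟩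
  exact ha

private theorem ltr0_comm : SMulCommClass Gal(Ω/K) (𝓞 K) (𝓞 Ω) := ⟨fun g a b => by
  apply NumberField.RingOfIntegers.ext
  have h1 : ((a • b : 𝓞 Ω) : Ω) = algebraMap K Ω (a : K) * (b : Ω) := by
    rw [Algebra.smul_def]
    rfl
  have h2 : ((a • (g • b) : 𝓞 Ω) : Ω) = algebraMap K Ω (a : K) * g (b : Ω) := by
    rw [Algebra.smul_def]
    rfl
  rw [h2]
  show g ((a • b : 𝓞 Ω) : Ω) = _
  rw [h1, map_mul, AlgEquiv.commutes]⟩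

private theorem ltr0_T (𝔓₁ 𝔓₂ : Ideal (𝓞 Ω)) [𝔓₁.IsPrime] [𝔓₂.IsPrime]
    (h : 𝔓₁.under (𝓞 K) = 𝔓₂.under (𝓞 K)) : ∃ σ : Gal(Ω/K), 𝔓₂ = σ • 𝔓₁ := by
  have : IsGalois K Ω := IsAlgClosure.isGalois K Ω
  let _ : TopologicalSpace (𝓞 Ω) := ⊥
  have : DiscreteTopology (𝓞 Ω) := ⟨rfl⟩
  have : ContinuousSMul Gal(Ω/K) (𝓞 Ω) := ltr0_cont
  have : SMulCommClass Gal(Ω/K) (𝓞 K) (𝓞 Ω) := ltr0_comm
  have : Algebra.IsInvariant (𝓞 K) (𝓞 Ω) Gal(Ω/K) := ltr0_inv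
  exact Algebra.IsInvariant.exists_smul_of_under_eq_of_profinite (A := 𝓞 K) (G := Gal(Ω/K))
    𝔓₁ 𝔓₂ h

theorem ltr_conj {v : Pl K} {P P' : Ideal (𝓞 Ω)} (hP : P.IsPrime) (hP' : P'.IsPrime)
    (h : P.under (𝓞 K) = v.asIdeal) (h' : P'.under (𝓞 K) = v.asIdeal) :
    ∃ g : Gal(Ω/K), ∀ x : 𝓞 Ω, x ∈ P' ↔ g⁻¹ • x ∈ P := by
  have := hP
  have := hP'
  obtain ⟨σ, hσ⟩ := ltr0_T (K := K) P P' (h.trans h'.symm)
  refine ⟨σ, fun x => ?_⟩
  rw [hσ]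
  exact Ideal.mem_pointwise_smul_iff_inv_smul_mem

theorem ltr_pow {v : Pl K} {P : Ideal (𝓞 Ω)} (hP : P.IsPrime) {F F' : Gal(Ω/K)}
    (hF : ∀ x : 𝓞 Ω, F • x - x ^ nm v ∈ P) (k : ℕ) (hF' : ∀ x : 𝓞 Ω, F' • x - x ^ (nm v ^ k) ∈ P) :
    (F ^ k)⁻¹ * F' ∈ P.inertia Gal(Ω/K) := by
  have hnm : 0 < nm v := lt_trans Nat.zero_lt_one (one_lt_nm v)
  have hFP : ∀ y ∈ P, F • y ∈ P := by
    intro y hy
    have h1 := P.add_mem (hF y) (P.pow_mem_of_mem hy (nm v) hnm)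
    rwa [sub_add_cancel] at h1
  have hpow : ∀ (k : ℕ) (x : 𝓞 Ω), (F ^ k) • x - x ^ (nm v ^ k) ∈ P := by
    intro k
    induction k with
    | zero =>
      intro x
      rw [pow_zero, pow_zero, one_smul, pow_one, sub_self]
      exact P.zero_mem
    | succ k ih =>
      intro x
      have h1 : (F ^ (k + 1)) • x - x ^ (nm v ^ (k + 1)) =
          F • ((F ^ k) • x - x ^ (nm v ^ k)) +
            (F • (x ^ (nm v ^ k)) - (x ^ (nm v ^ k)) ^ nm v) := by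
        rw [smul_sub, pow_succ' F, mul_smul, ← pow_mul, ← pow_succ]
        ring
      rw [h1]
      exact P.add_mem (hFP _ (ih x)) (hF _)
  intro x
  set y : 𝓞 Ω := ((F ^ k)⁻¹ * F') • x - x with hy
  have h1 : (F ^ k) • y = F' • x - (F ^ k) • x := by
    rw [hy, smul_sub, ← mul_smul, mul_inv_cancel_left]
  have h2 : (F ^ k) • y ∈ P := by
    rw [h1]
    have h3 := P.sub_mem (hF' x) (hpow k x)
    rwa [sub_sub_sub_cancel_right] at h3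
  have h3 : y ^ (nm v ^ k) ∈ P := by
    have h4 := P.sub_mem h2 (hpow k y)
    rwa [sub_sub_cancel] at h4
  exact hP.mem_of_pow_mem _ h3

/-- transitivity -/
theorem ltr (hp : p.Prime) (hζ : IsPrimitiveRoot ζ p) {R : Type} [Group R]
    [Finite R] {e : R → R → ZMod p} (he : Coc p e) {ρ : Gal(Ω/K) →* R} (hρ : H38.ML.FT ρ)
    {v : Pl K} (hv : ¬ Above p v) {π : Kˣ} (hπ : ord v π = 1) (L : LD p ζ Ω v π) {F : Gal(Ω/K)}
    (hF : IsFr L F) (htm : Tm e ρ L.P) (P' : Ideal (𝓞 Ω)) (hP' : P'.IsPrime)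
    (h' : P'.under (𝓞 K) = v.asIdeal) :
    Tm e ρ P' ∧ ∀ F', FrP P' F' → ∀ τ' ∈ P'.inertia Gal(Ω/K), ρ F' * ρ τ' = ρ τ' * ρ F' ∧
      ∃ k j : ℕ, iv e (ρ F') (ρ τ') = k * j * iv e (ρ F) (ρ L.t) ∧
        ∀ a : Kˣ, ord v a = 0 → kk p ζ a F' = k * lg p ζ v a := by
  obtain ⟨g, hg⟩ := ltr_conj L.prime hP' L.under h'
  have hinr : ∀ τ' ∈ P'.inertia Gal(Ω/K), g⁻¹ * τ' * g ∈ L.P.inertia Gal(Ω/K) := by
    intro τ' hτ' x
    have h1 : (g⁻¹ * τ' * g) • x - x = g⁻¹ • (τ' • (g • x) - g • x) := by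
      rw [smul_sub, mul_smul, mul_smul, inv_smul_smul]
    rw [h1]
    exact (hg _).1 (hτ' (g • x))
  have hco : ∀ σ : Gal(Ω/K), ρ σ = ρ g * ρ (g⁻¹ * σ * g) * (ρ g)⁻¹ := by
    intro σ
    rw [← map_inv, ← map_mul, ← map_mul]
    congr 1
    group
  refine ⟨?_, ?_⟩
  · intro τ' hτ'
    rw [hco τ', conj_pow, htm _ (hinr τ' hτ'), mul_one, mul_inv_cancel]
  · rintro F' ⟨k, hk⟩ τ' hτ'
    have hn : Ideal.absNorm (P'.under (𝓞 K)) = nm v := by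
      rw [h']
      rfl
    rw [hn] at hk
    have hF2 : ∀ x : 𝓞 Ω, (g⁻¹ * F' * g) • x - x ^ (nm v ^ k) ∈ L.P := by
      intro x
      have h1 : (g⁻¹ * F' * g) • x - x ^ (nm v ^ k) =
          g⁻¹ • (F' • (g • x) - (g • x) ^ (nm v ^ k)) := by
        rw [smul_sub, mul_smul, mul_smul, smul_pow', inv_smul_smul]
      rw [h1]
      exact (hg _).1 (hk (g • x))
    have hτ1 := ltr_pow L.prime hF.1 k hF2
    have hpp : ∀ τ ∈ L.P.inertia Gal(Ω/K), ρ τ ^ p = 1 := htm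
    obtain ⟨j, hj⟩ : ∃ j, ρ (g⁻¹ * τ' * g) = ρ L.t ^ j :=
      ⟨_, tm hp hζ hv hπ L ρ hρ hpp _ (hinr τ' hτ')⟩
    obtain ⟨i, hi⟩ : ∃ i, ρ ((F ^ k)⁻¹ * (g⁻¹ * F' * g)) = ρ L.t ^ i :=
      ⟨_, tm hp hζ hv hπ L ρ hρ hpp _ hτ1⟩
    have hc : ρ F * ρ L.t = ρ L.t * ρ F := hF.2.2 R ρ hρ
      (fun τ hτ => by rw [pow_two, pow_mul, hpp τ hτ, one_pow])
    have hF3 : ρ (g⁻¹ * F' * g) = ρ F ^ k * ρ L.t ^ i := by
      rw [← hi, ← map_pow, ← map_mul, mul_inv_cancel_left]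
    have hC : Commute (ρ F) (ρ L.t) := hc
    have hC1 : Commute (ρ F ^ k) (ρ L.t ^ j) := (hC.pow_left k).pow_right j
    have hC2 : Commute (ρ L.t ^ i) (ρ L.t ^ j) := (Commute.refl _).pow_pow i j
    have hC3 : Commute (ρ F ^ k * ρ L.t ^ i) (ρ L.t ^ j) := hC1.mul_left hC2
    have hC4 : Commute (ρ F) (ρ L.t ^ j) := hC.pow_right j
    have hiv : iv e (ρ F ^ k * ρ L.t ^ i) (ρ L.t ^ j) = k * j * iv e (ρ F) (ρ L.t) := by
      rw [iv_mul_left he hC1 hC2, iv_self_pow he, add_zero, iv_pow_left he hC4,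
        iv_pow_right he hc, mul_assoc]
    refine ⟨?_, k, j, ?_, ?_⟩
    · rw [hco F', hco τ', hF3, hj]
      have h1 : (ρ F ^ k * ρ L.t ^ i) * ρ L.t ^ j = ρ L.t ^ j * (ρ F ^ k * ρ L.t ^ i) := hC3
      calc ρ g * (ρ F ^ k * ρ L.t ^ i) * (ρ g)⁻¹ * (ρ g * ρ L.t ^ j * (ρ g)⁻¹)
          = ρ g * ((ρ F ^ k * ρ L.t ^ i) * ρ L.t ^ j) * (ρ g)⁻¹ := by group
        _ = ρ g * (ρ L.t ^ j * (ρ F ^ k * ρ L.t ^ i)) * (ρ g)⁻¹ := by rw [h1]
        _ = _ := by group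
    · rw [hco F', hco τ', hF3, hj, iv_conj he hC3, hiv]
    · intro a ha
      have h0 : kk p ζ a g⁻¹ + kk p ζ a g = 0 := by
        rw [← kk_mul, inv_mul_cancel, kk_one]
      have h1 : kk p ζ a F' = kk p ζ a (g⁻¹ * F' * g) := by
        rw [kk_mul, kk_mul]
        linear_combination -h0
      have h2 : g⁻¹ * F' * g = F ^ k * ((F ^ k)⁻¹ * (g⁻¹ * F' * g)) := by
        rw [mul_inv_cancel_left]
      have h3 : kk p ζ a (F ^ k) = k * kk p ζ a F := by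
        unfold kk
        rw [map_pow, toAdd_pow, nsmul_eq_mul]
      have h4 : kk p ζ a ((F ^ k)⁻¹ * (g⁻¹ * F' * g)) = 0 := by
        rw [ld_kk hp hζ hv hπ L _ hτ1, ha, Int.cast_zero, zero_mul]
      rw [h1, h2, kk_mul, h3, h4, add_zero, hF.2.1 a]
      unfold lgv
      rw [ha, neg_zero, zpow_zero, mul_one]

end H57.BRA
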