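import Pool.Agent.H57.BRA.Def

/-!
# [H57 BRA GRP] commutators and p-th powers of lifts, 80-150 lines. File Pool/Agent/H57/BRA/Grp.lean

`Xt e he` is the extension of `R` by `ZMod p` (elements `⟨r, z⟩`, product `⟨r r', z + z' + e r r'⟩`; the group instance is in Def). All statements
follow from computations in `Xt e he`: the elements `⟨1, z⟩` are central (`e 1 a = e a 1 = 0`), for commuting `r, s`:
`⟨r, 0⟩ * ⟨s, 0⟩ = ⟨1, iv e r s⟩ * (⟨s, 0⟩ * ⟨r, 0⟩)`, and the commutator of two elements over `r`, `s` depends only on `r`, `s`; so `iv_mul_left` is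
`[x x', y] = [x, y] [x', y]` for `[x', y]` central (or directly from four cocycle identities), `iv_conj` is conjugation in `Xt`, `iv_pow_left` induction,
`iv_self_pow`: powers of `⟨s, 0⟩` commute.
`pw_lift`: `⟨r, z⟩ ^ n = ⟨r ^ n, n * z + ∑ k ∈ range n, e (r ^ k) r⟩` by induction (for `n = p`: `⟨r ^ p, pw e r⟩`). So for `r ^ p = 1`: `pw e r = 0` iff some (every) lift
of `r` has `p`-th power `1`, which is stable under conjugation (`pw_conj`) and powers (`pw_pow`).
-/

set_option autoImplicit false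

noncomputable section

namespace H57.BRA

variable {p : ℕ} {R : Type} [Group R] {e : R → R → ZMod p}

theorem xt_mul (he : Coc p e) (x y : Xt e he) : x * y = ⟨x.r * y.r, x.z + y.z + e x.r y.r⟩ := rfl

theorem xt_one (he : Coc p e) : (1 : Xt e he) = ⟨1, 0⟩ := rfl

theorem xt_cen (he : Coc p e) (z : ZMod p) (x : Xt e he) :
    (⟨1, z⟩ : Xt e he) * x = x * ⟨1, z⟩ := by
  rw [xt_mul, xt_mul]
  ext
  · simp only [one_mul, mul_one]
  · simp only [he.l1, he.r1]
    ring

theorem iv_mul_left (he : Coc p e) {r r' s : R} (h : r * s = s * r) (h' : r' * s = s * r') :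
    iv e (r * r') s = iv e r s + iv e r' s := by
  have h1 := he.co r r' s
  have h2 := he.co s r r'
  have h3 := he.co r s r'
  rw [← h] at h2
  rw [h'] at h1
  unfold iv
  linear_combination h3 - h1 - h2

theorem iv_swap (r s : R) : iv e s r = -iv e r s := by
  rw [iv, iv, neg_sub]

theorem iv_mul_right (he : Coc p e) {r s s' : R} (h : r * s = s * r) (h' : r * s' = s' * r) :
    iv e r (s * s') = iv e r s + iv e r s' := by
  rw [iv_swap (s * s') r, iv_mul_left he h.symm h'.symm, iv_swap r s, iv_swap r s']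
  ring

theorem iv_one_left (he : Coc p e) (s : R) : iv e 1 s = 0 := by
  rw [iv, he.l1, he.r1, sub_zero]

theorem grp_comm (he : Coc p e) (A B : Xt e he) (h : A.r * B.r = B.r * A.r) :
    A * B = (⟨1, iv e A.r B.r⟩ : Xt e he) * (B * A) := by
  rw [xt_mul, xt_mul, xt_mul]
  ext
  · simp only [one_mul, h]
  · simp only [he.l1, iv]
    ring

theorem grp_mul_r (he : Coc p e) (x y : Xt e he) : (x * y).r = x.r * y.r := rfl

theorem grp_inv_r (he : Coc p e) (x : Xt e he) : (x⁻¹).r = x.r⁻¹ := rfl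

theorem grp_conj_r (he : Coc p e) (x y : Xt e he) : (x * y * x⁻¹).r = x.r * y.r * x.r⁻¹ := rfl

theorem iv_conj (he : Coc p e) {r s : R} (h : r * s = s * r) (x : R) :
    iv e (x * r * x⁻¹) (x * s * x⁻¹) = iv e r s := by
  let A : Xt e he := ⟨r, 0⟩
  let B : Xt e he := ⟨s, 0⟩
  let X : Xt e he := ⟨x, 0⟩
  have h1 : A * B = (⟨1, iv e r s⟩ : Xt e he) * (B * A) := grp_comm he A B h
  have h2 := grp_comm he (X * A * X⁻¹) (X * B * X⁻¹) (by
    rw [grp_conj_r, grp_conj_r]
    change x * r * x⁻¹ * (x * s * x⁻¹) = x * s * x⁻¹ * (x * r * x⁻¹)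
    calc x * r * x⁻¹ * (x * s * x⁻¹) = x * (r * s) * x⁻¹ := by group
      _ = x * (s * r) * x⁻¹ := by rw [h]
      _ = x * s * x⁻¹ * (x * r * x⁻¹) := by group)
  have h3 : X * A * X⁻¹ * (X * B * X⁻¹) = X * (A * B) * X⁻¹ := by group
  have h4 : X * B * X⁻¹ * (X * A * X⁻¹) = X * (B * A) * X⁻¹ := by group
  rw [h3, h4, h1] at h2
  have h5 : X * ((⟨1, iv e r s⟩ : Xt e he) * (B * A)) * X⁻¹ =
      (⟨1, iv e r s⟩ : Xt e he) * (X * (B * A) * X⁻¹) := by
    rw [← mul_assoc X, ← xt_cen he]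
    simp only [mul_assoc]
  rw [h5] at h2
  have h6 := mul_right_cancel h2
  have h7 := congrArg Xt.z h6
  exact h7.symm

theorem iv_pow_left (he : Coc p e) {r s : R} (h : r * s = s * r) (k : ℕ) :
    iv e (r ^ k) s = k * iv e r s := by
  have hc : Commute r s := h
  induction k with
  | zero => rw [pow_zero, iv_one_left he, Nat.cast_zero, zero_mul]
  | succ k ih =>
    rw [pow_succ, iv_mul_left he (hc.pow_left k).eq h, ih]
    push_cast
    ring

theorem iv_pow_right (he : Coc p e) {r s : R} (h : r * s = s * r) (k : ℕ) :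
    iv e r (s ^ k) = k * iv e r s := by
  rw [iv_swap (s ^ k) r, iv_pow_left he h.symm k, iv_swap r s]
  ring

theorem iv_self_pow (he : Coc p e) (s : R) (j k : ℕ) : iv e (s ^ j) (s ^ k) = 0 := by
  have hc : Commute s s := Commute.refl s
  rw [iv_pow_left he (hc.pow_right k).eq j, iv_pow_right he rfl k]
  have : iv e s s = 0 := by rw [iv, sub_self]
  rw [this, mul_zero, mul_zero]

theorem pw_lift (he : Coc p e) (r : R) (z : ZMod p) (n : ℕ) :
    (⟨r, z⟩ : Xt e he) ^ n = ⟨r ^ n, n * z + ∑ k ∈ Finset.range n, e (r ^ k) r⟩ := by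
  induction n with
  | zero =>
    rw [pow_zero, xt_one]
    ext
    · simp only [pow_zero]
    · simp only [Nat.cast_zero, zero_mul, Finset.range_zero, Finset.sum_empty, add_zero]
  | succ n ih =>
    rw [pow_succ, ih, xt_mul]
    ext
    · simp only [pow_succ]
    · simp only [Finset.sum_range_succ]
      push_cast
      ring

theorem grp_pw_zero (he : Coc p e) {r : R} (h : r ^ p = 1) (h' : pw e r = 0) (z : ZMod p) :
    (⟨r, z⟩ : Xt e he) ^ p = 1 := by
  rw [pw_lift he r z p, xt_one]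
  ext
  · exact h
  · change (p : ZMod p) * z + pw e r = 0
    rw [h', ZMod.natCast_self, zero_mul, add_zero]

theorem grp_of_pow (he : Coc p e) (A : Xt e he) (h : A ^ p = 1) : A.r ^ p = 1 ∧ pw e A.r = 0 := by
  have h1 : A ^ p = (⟨A.r, A.z⟩ : Xt e he) ^ p := rfl
  rw [h1, pw_lift he A.r A.z p, xt_one] at h
  have h2 := congrArg Xt.r h
  have h3 := congrArg Xt.z h
  refine ⟨h2, ?_⟩
  change (p : ZMod p) * A.z + pw e A.r = 0 at h3
  rwa [ZMod.natCast_self, zero_mul, zero_add] at h3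

theorem pw_conj (he : Coc p e) {r : R} (h : r ^ p = 1) (h' : pw e r = 0) (x : R) :
    (x * r * x⁻¹) ^ p = 1 ∧ pw e (x * r * x⁻¹) = 0 := by
  let A : Xt e he := ⟨r, 0⟩
  let X : Xt e he := ⟨x, 0⟩
  have h1 : A ^ p = 1 := grp_pw_zero he h h' 0
  have h2 : (X * A * X⁻¹) ^ p = 1 := by
    rw [conj_pow, h1, mul_one, mul_inv_cancel]
  exact grp_of_pow he (X * A * X⁻¹) h2

theorem pw_pow (he : Coc p e) {r : R} (h : r ^ p = 1) (h' : pw e r = 0) (k : ℕ) :
    (r ^ k) ^ p = 1 ∧ pw e (r ^ k) = 0 := by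
  let A : Xt e he := ⟨r, 0⟩
  have h1 : A ^ p = 1 := grp_pw_zero he h h' 0
  have h2 : (A ^ k) ^ p = 1 := by
    rw [← pow_mul, mul_comm, pow_mul, h1, one_pow]
  have h3 := grp_of_pow he (A ^ k) h2
  have h4 : (A ^ k).r = r ^ k := by
    rw [show A ^ k = (⟨r, 0⟩ : Xt e he) ^ k from rfl, pw_lift he r 0 k]
  rwa [h4] at h3

end H57.BRA
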