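import Pool.Agent.H57.BRA.Bca
import Pool.Agent.H57.BRA.Grp

/-!
# [H57 BRA BCP] base change: primes, splitting, local triviality, 120-200 lines. File Pool/Agent/H57/BRA/Bcp.lean

`P` a prime of `𝓞 Ω` over the prime `w` of `L`, `v` the prime of `K` under `w`.
* `bcp_under`: `P.under (𝓞 K) = v.asIdeal`: `Over w v` means `w.asIdeal.comap (algebraMap (𝓞 K) (𝓞 L)) = v.asIdeal`, and `algebraMap (𝓞 K) (𝓞 Ω)` is the composite through `𝓞 L` (elementwise:
  both are restrictions of `K → L → Ω`; `IsScalarTower.algebraMap_apply K L Ω`).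
* `bcp_smul`: the actions of `σ` and `rsK σ` on `𝓞 Ω` agree (both restrict the action on `Ω`; `Subtype.ext`/`RingOfIntegers.ext`).
* `bcp_inertia` from `bcp_smul` (`τ ∈ P.inertia G` iff `τ • x - x ∈ P` for all `x`).
* `bcp_frp`: `absNorm (P.under (𝓞 L)) = nm w = nm v ^ f` (`nm_over`), so `FrP P F` over `L` with exponent `k` gives exponent `f * k` over `K`.
* `bcp_lt` from these.
* `bcp_spl`: `Spl p ζ v c`, `v ∤ p`, `w` over `v` imply `Spl` over `L` for `inc c`. With `e`, `f` of `bc_data` (GBase): `Spl` at `v ∤ p` means `p ∣ ord v c` and, for `π` with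
  `ord v π = 1`, `lgv p ζ v π c = 0` (`b_eq` in GHeis, take `x = π` and `x` with `ord v x = 0`, `lg v x = 1`, see `glg_aux`), i.e. `c = π ^ (p k) c'` with `ord v c' = 0`, `lg v c' = 0`.
  Then `inc c = (inc π ^ k) ^ p * inc c'` and `lg w (inc c') = f * lg v c' = 0`, `ord w (inc c') = 0`: `B w (inc c) x = p * .. + B w (inc c') x = ord w x * lg w (inc c') - 0 = 0`.
  Alternative: the statement may exist in the library (SymB, SymC, Scal, KumC: search `Spl`).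
-/

set_option autoImplicit false

open scoped NumberField Pointwise
open IsDedekindDomain

noncomputable section

namespace H57.BRA

open H63.MA

variable {K : Type} [Field K] [NumberField K] {L : Type} [Field L] [NumberField L] [Algebra K L]
  {Ω : Type} [Field Ω] [Algebra K Ω] [Algebra L Ω] [IsScalarTower K L Ω] [IsAlgClosure K Ω]
  [IsAlgClosure L Ω] {p : ℕ} {ζ : K}

omit [IsAlgClosure K Ω] [IsAlgClosure L Ω] in
theorem bcp_under {w : Pl L} {v : Pl K} (h : Over w v) {P : Ideal (𝓞 Ω)}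
    (hP : P.under (𝓞 L) = w.asIdeal) : P.under (𝓞 K) = v.asIdeal := by
  have h1 : ∀ x : 𝓞 K, algebraMap (𝓞 K) (𝓞 Ω) x =
      algebraMap (𝓞 L) (𝓞 Ω) (algebraMap (𝓞 K) (𝓞 L) x) := by
    intro x
    apply NumberField.RingOfIntegers.ext
    exact IsScalarTower.algebraMap_apply K L Ω (x : K)
  have h2 : w.asIdeal.comap (algebraMap (𝓞 K) (𝓞 L)) = v.asIdeal := h
  rw [← h2, ← hP]
  ext x
  change algebraMap (𝓞 K) (𝓞 Ω) x ∈ P ↔
    algebraMap (𝓞 L) (𝓞 Ω) (algebraMap (𝓞 K) (𝓞 L) x) ∈ P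
  rw [h1]

omit [IsAlgClosure K Ω] [IsAlgClosure L Ω] in
theorem bcp_smul (σ : Gal(Ω/L)) (x : 𝓞 Ω) : rsK K L Ω σ • x = σ • x := by
  apply NumberField.RingOfIntegers.ext
  rfl

omit [IsAlgClosure K Ω] [IsAlgClosure L Ω] in
theorem bcp_inertia {P : Ideal (𝓞 Ω)} {τ : Gal(Ω/L)} (h : τ ∈ P.inertia Gal(Ω/L)) :
    rsK K L Ω τ ∈ P.inertia Gal(Ω/K) := by
  intro x
  have h1 := h x
  rwa [← bcp_smul (K := K)] at h1

omit [IsAlgClosure K Ω] [IsAlgClosure L Ω] in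
theorem bcp_frp {w : Pl L} {v : Pl K} (h : Over w v) {P : Ideal (𝓞 Ω)}
    (hP : P.under (𝓞 L) = w.asIdeal) {F : Gal(Ω/L)} (hF : FrP P F) : FrP P (rsK K L Ω F) := by
  obtain ⟨k, hk⟩ := hF
  obtain ⟨f, -, hf⟩ := nm_over h
  refine ⟨f * k, fun x => ?_⟩
  have h1 := hk x
  have h2 : Ideal.absNorm (P.under (𝓞 L)) = nm v ^ f := by
    rw [hP]
    exact hf
  have h3 : Ideal.absNorm (P.under (𝓞 K)) = nm v := by
    rw [bcp_under h hP]
    rfl
  rw [h2, ← pow_mul] at h1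
  rw [h3, bcp_smul]
  exact h1

omit [IsAlgClosure K Ω] [IsAlgClosure L Ω] in
theorem bcp_lt {R : Type} [Group R] {e : R → R → ZMod p} {ρ : Gal(Ω/K) →* R} {w : Pl L}
    {v : Pl K} (h : Over w v) {P : Ideal (𝓞 Ω)} (hP : P.under (𝓞 L) = w.asIdeal)
    (hl : LT e ρ P) : LT e (ρ.comp (rsK K L Ω)) P :=
  ⟨fun _ hτ => hl.1 _ (bcp_inertia hτ), fun _ hF _ hτ => hl.2 _ (bcp_frp h hP hF) _ (bcp_inertia hτ)⟩

omit [IsAlgClosure K Ω] [IsAlgClosure L Ω] in
theorem bcp_spl (hp : p.Prime) (hζ : IsPrimitiveRoot ζ p) {w : Pl L} {v : Pl K} (h : Over w v)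
    (hv : ¬ Above p v) {c : Kˣ} (hc : Spl p ζ v c) : Spl p (algebraMap K L ζ) w (inc K L c) := by
  have hw : ¬ Above p w := fun hcon => hv ((above_over h p).1 hcon)
  have hζ' : IsPrimitiveRoot (algebraMap K L ζ) p := GBase_zeta hζ
  obtain ⟨y, hy⟩ := (spl_iff hp hζ hv c).1 hc
  refine (spl_iff hp hζ' hw _).2 ⟨inc K L y, ?_⟩
  have h1 := (one1_over h _).2 hy
  rwa [map_mul, map_inv, map_pow] at h1

end H57.BRA
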