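import Pool.Agent.H57.PC.Def
import Pool.Agent.H63.MA.GLg
import Pool.Agent.H63.MA.NormZ

/-!
# H57-BRA: Hasse principle and product formula for central embedding problems of order p (definitions)

`Γ = Gal(Ω/K)`, `e` a normalised 2-cocycle of a finite group `R` with values in `ZMod p`, `ρ : Γ → R` of finite type.
* `Coc p e`, `C2 X` (2-cocycles of `Γ` of finite level), `pb e ρ` the pull back. `iv e r s = e r s - e s r` (for commuting `r, s`: the commutator of
  lifts), `pw e r` (the `p`-th power of the lift `(r, 0)` if `r ^ p = 1`).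
* `Kl X V`: `X` is the coboundary of a function of finite level on `V ⊆ Γ` (`V = univ`: `Tv X`).
* `Zk p ζ c`: the `σ` with `kk (c i) σ = 0` for all `i`.
* `FrP P F`: `F` acts as a power of the Frobenius modulo the prime `P` of `𝓞 Ω`.
* `Z2 p K`: `K` contains the roots of unity of order `p ^ 2` (always assumed).
* `Tm e ρ P` (tame condition; `e` only supplies `p`): for `τ` in the inertia group of `P`: `ρ τ ^ p = 1`.
* `IsFr L F`: `F` is a Frobenius element at `L.P` with `kk a F = lgv a` for all `a` (so it fixes the root `L.w`), and `φ F`, `φ (L.t)` commute for every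
  homomorphism `φ` of finite type to a finite group with `φ (inertia)^(p^2) = 1`.
* `Xt e he`: the extension of `R` by `ZMod p` with the cocycle `e`.
* `LT e ρ P` (local triviality): `Tm`, and `ρ F`, `ρ τ` commute together with their lifts, for `F` as in `FrP`, `τ` in the inertia group.
-/

set_option autoImplicit false

open scoped NumberField
open IsDedekindDomain

noncomputable section

namespace H57.BRA

open H63.MA H38.BG H57.PC

/-- normalised 2-cocycle -/
structure Coc (p : ℕ) {R : Type} [Group R] (e : R → R → ZMod p) : Prop where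
  l1 : ∀ a, e 1 a = 0
  r1 : ∀ a, e a 1 = 0
  co : ∀ a b c, e b c + e a (b * c) = e (a * b) c + e a b

/-- the extension of `R` by `ZMod p` with the cocycle `e` -/
@[ext] structure Xt {p : ℕ} {R : Type} [Group R] (e : R → R → ZMod p) (he : Coc p e) where
  r : R
  z : ZMod p

instance {p : ℕ} {R : Type} [Group R] (e : R → R → ZMod p) (he : Coc p e) : Group (Xt e he) where
  mul x y := ⟨x.r * y.r, x.z + y.z + e x.r y.r⟩
  one := ⟨1, 0⟩
  inv x := ⟨x.r⁻¹, -x.z - e x.r⁻¹ x.r⟩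
  mul_assoc x y w := by
    change (⟨x.r * y.r * w.r, x.z + y.z + e x.r y.r + w.z + e (x.r * y.r) w.r⟩ : Xt e he) =
      ⟨x.r * (y.r * w.r), x.z + (y.z + w.z + e y.r w.r) + e x.r (y.r * w.r)⟩
    rw [mul_assoc]
    congr 1
    linear_combination -(he.co x.r y.r w.r)
  one_mul x := by
    change (⟨1 * x.r, 0 + x.z + e 1 x.r⟩ : Xt e he) = x
    rw [one_mul, he.l1, zero_add, add_zero]
  mul_one x := by
    change (⟨x.r * 1, x.z + 0 + e x.r 1⟩ : Xt e he) = x
    rw [mul_one, he.r1, add_zero, add_zero]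
  inv_mul_cancel x := by
    change (⟨x.r⁻¹ * x.r, -x.z - e x.r⁻¹ x.r + x.z + e x.r⁻¹ x.r⟩ : Xt e he) = ⟨1, 0⟩
    rw [inv_mul_cancel]
    congr 1
    ring

/-- `K` contains the roots of unity of order `p ^ 2` -/
def Z2 (p : ℕ) (K : Type) [Field K] : Prop := ∃ z : K, IsPrimitiveRoot z (p ^ 2)

/-- for commuting `r`, `s`: the commutator of lifts to the extension -/
def iv {p : ℕ} {R : Type} (e : R → R → ZMod p) (r s : R) : ZMod p := e r s - e s r

/-- for `r ^ p = 1`: the `p`-th power of the lift `(r, 0)` to the extension -/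
def pw {p : ℕ} {R : Type} [Group R] (e : R → R → ZMod p) (r : R) : ZMod p :=
  ∑ k ∈ Finset.range p, e (r ^ k) r

section defs

variable {K : Type} [Field K] {Ω : Type} [Field Ω] [Algebra K Ω] {p : ℕ}

/-- normalised 2-cocycle of finite level -/
structure C2 (X : Gal(Ω/K) → Gal(Ω/K) → ZMod p) : Prop where
  l1 : ∀ a, X 1 a = 0
  r1 : ∀ a, X a 1 = 0
  co : ∀ a b c, X b c + X a (b * c) = X (a * b) c + X a b
  lev : ∃ E : IntermediateField K Ω, FiniteDimensional K E ∧
    ∀ σ τ, ∀ u ∈ E.fixingSubgroup, X (σ * u) τ = X σ τ ∧ X σ (τ * u) = X σ τ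

/-- the pull back of a cocycle -/
def pb {R : Type} [Group R] (e : R → R → ZMod p) (ρ : Gal(Ω/K) →* R) (σ τ : Gal(Ω/K)) : ZMod p :=
  e (ρ σ) (ρ τ)

/-- the restriction of `X` to `V` is a coboundary of finite level -/
def Kl (X : Gal(Ω/K) → Gal(Ω/K) → ZMod p) (V : Set Gal(Ω/K)) : Prop :=
  ∃ l : Gal(Ω/K) → ZMod p, Lev l ∧ ∀ σ ∈ V, ∀ τ ∈ V, l (σ * τ) = l σ + l τ + X σ τ

/-- the common kernel of Kummer characters -/
def Zk [NumberField K] (p : ℕ) (ζ : K) {n : ℕ} (c : Fin n → Kˣ) : Set Gal(Ω/K) :=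
  {σ | ∀ i, kk p ζ (c i) σ = 0}

/-- powers of the Frobenius at `P` -/
def FrP [NumberField K] (P : Ideal (𝓞 Ω)) (F : Gal(Ω/K)) : Prop :=
  ∃ k : ℕ, ∀ x : 𝓞 Ω, F • x - x ^ (Ideal.absNorm (P.under (𝓞 K)) ^ k) ∈ P

/-- the tame condition at `P` -/
def Tm {R : Type} [Group R] (_e : R → R → ZMod p) (ρ : Gal(Ω/K) →* R) (P : Ideal (𝓞 Ω)) : Prop :=
  ∀ τ ∈ P.inertia Gal(Ω/K), ρ τ ^ p = 1

/-- a Frobenius element at the prime of the local data, fixing the root of `π` -/
def IsFr [NumberField K] {ζ : K} {v : Pl K} {π : Kˣ} (L : LD p ζ Ω v π) (F : Gal(Ω/K)) : Prop :=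
  (∀ x : 𝓞 Ω, F • x - x ^ nm v ∈ L.P) ∧ (∀ a : Kˣ, kk p ζ a F = lgv p ζ v π a) ∧
    ∀ (G : Type) [Group G] [Finite G] (φ : Gal(Ω/K) →* G), H38.ML.FT φ →
      (∀ τ ∈ L.P.inertia Gal(Ω/K), φ τ ^ (p ^ 2) = 1) → φ F * φ L.t = φ L.t * φ F

/-- local triviality at `P` -/
def LT [NumberField K] {R : Type} [Group R] (e : R → R → ZMod p) (ρ : Gal(Ω/K) →* R)
    (P : Ideal (𝓞 Ω)) : Prop :=
  Tm e ρ P ∧ ∀ F, FrP P F → ∀ τ ∈ P.inertia Gal(Ω/K),
    ρ F * ρ τ = ρ τ * ρ F ∧ iv e (ρ F) (ρ τ) = 0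

end defs

end H57.BRA
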