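import Pool.Agent.H57.BRA.Def

/-!
# [H57 BRA AUX] an auxiliary element, 30-60 lines. File Pool/Agent/H57/BRA/AuxC.lean

As `glg_aux` (Pool/Agent/H63/MA/GLg.lean; copy its proof) with additional primes `S` where `c` is locally a `p`-th power: `weak_approx_prim` for `S ∪ T` and the values `y v = 1` for
`v ∈ S`, `y v` with `ord v (y v) = 0`, `lg v (y v) = 1` for `v ∈ T` (as in `glg_aux`). At `v ∈ S`: `One1 v c`, so `B v c x = 0` for all `x` (`B_of_one1`-type lemma for the first argument: in SymB / SymC;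
`ord v c = 0` and `lg v (c ^ n) = n * lg v c = 0`, `lg_of_one1`).
-/

set_option autoImplicit false

open scoped NumberField
open IsDedekindDomain

noncomputable section

namespace H57.BRA

open H63.MA

theorem aux2 {K : Type} [Field K] [NumberField K] {p : ℕ} {ζ : K} (hp : p.Prime)
    (hζ : IsPrimitiveRoot ζ p) (S T : Finset (Pl K)) (hS : ∀ v ∈ S, ¬ Above p v)
    (hT : ∀ v ∈ T, ¬ Above p v) (hST : ∀ v ∈ S, v ∉ T) :
    ∃ c : Kˣ, Prim p c ∧ (∀ v ∈ S, Spl p ζ v c) ∧ ∀ v ∈ T, ord v c = 0 ∧ lg p ζ v c = 1 := by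
  classical
  have hy : ∀ v : Pl K, ∃ y : Kˣ, (v ∈ S → y = 1) ∧
      (v ∉ S → ¬ Above p v → ord v y = 0 ∧ lg p ζ v y = 1) := by
    intro v
    by_cases hvS : v ∈ S
    · exact ⟨1, fun _ => rfl, fun h => absurd hvS h⟩
    · by_cases hv : Above p v
      · exact ⟨1, fun _ => rfl, fun _ h => absurd hv h⟩
      · obtain ⟨z, h1, h2⟩ := exists_lg hp hζ hv 1
        exact ⟨z, fun h => absurd h hvS, fun _ _ => ⟨h1, h2⟩⟩
  choose y hy1 hy2 using hy
  have hU : ∀ v ∈ S ∪ T, ¬ Above p v := by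
    intro v hv
    rcases Finset.mem_union.1 hv with h | h
    · exact hS v h
    · exact hT v h
  obtain ⟨c, hc1, hc2⟩ := weak_approx_prim hp.ne_zero (S ∪ T) hU y
  refine ⟨c, hc1, fun v hv x => ?_, fun v hv => ?_⟩
  · have h3 := hc2 v (Finset.mem_union_left _ hv)
    rw [hy1 v hv, inv_one, mul_one] at h3
    rw [B_symm hp hζ (hS v hv), B_of_one1 hp hζ (hS v hv) x h3, neg_zero]
  · have hvS : v ∉ S := fun h => hST v h hv
    obtain ⟨h1, h2⟩ := hy2 v hvS (hT v hv)
    have h3 := hc2 v (Finset.mem_union_right _ hv)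
    have h4 : c = c * (y v)⁻¹ * y v := by rw [inv_mul_cancel_right]
    constructor
    · rw [h4, ord_mul, ord_of_one1 h3, h1, add_zero]
    · rw [h4, lg_mul hp hζ (hT v hv) (ord_of_one1 h3) h1, lg_of_one1 hp hζ (hT v hv) h3, h2,
        zero_add]

end H57.BRA
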