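import Pool.Agent.H57.BRA.Has
import Pool.Agent.H57.BRA.Ltr
import Pool.Agent.H57.BRA.AuxC

/-!
# [H57 BRA BR] Hasse principle and product formula relative to S0, 200-300 lines. File Pool/Agent/H57/BRA/BR.lean

`D : RD0 K p ζ`, `L : LDs D Ω`, `Fr : FR L`; `c i` are `PS` (locally `p`-th powers at `S0`), `pb e ρ` is killed by the tower of the `c i`, `Tm` outside `S0`.
* `br1`: if `iv e (ρ F_v) (ρ t_v) = 0` for all `v ∉ S0` then `pb e ρ` is a coboundary. Proof: `has` with: `v ∈ S0` (not above `p`): `(hc i).2`; `v ∉ S0`: `ltr` for `L.ld v hv`, `isFr_of Fr v hv`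
  (`¬ Above p v` by `D.above`): `Tm e ρ P'` and `iv e (ρ F') (ρ τ') = k * j * 0 = 0`.
* `br2`: Let `c2` be the element of `aux2` for `S = S0` without the primes above `p`, and `T`. If `T = ∅` the sum is empty. Otherwise `c2` is not a `p`-th power (`lg v (y ^ p) = p * lg v y = 0`,
  `ord v y = 0`). `M = K(c2^(1/p))` from `bca_exists`. Apply `has` over `M` to `ρ' = ρ ∘ rsK` and `c' i = inc (c i)` (hypotheses as in the step of `has`). Local condition at `w | v`, `v ∤ p`: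
  `v ∈ S0`: `bcp_spl`. `v ∉ S0`: `LT e ρ' P` for `P` over `w`: for `F'` with `FrP P F'` over `M` and `τ'` in the inertia group over `M` use `ltr` for `rsK F'`, `rsK τ'`
  (`bcp_frp, bcp_inertia, bcp_under`): commute, and `iv = k * j * iv e (ρ F_v) (ρ t_v)`. If `v ∉ T`: `ρ t_v = 1`, so `iv = 0` (`iv_swap, iv_one_left`). If `v ∈ T`:
  `kk c2 (rsK F') = k * lg v c2 = k` and `kk c2 (rsK F') = 0` (`bca_range`), so `(k : ZMod p) = 0`. So `Tv (pb e ρ')`, by `bca_lev'`, `bca_range` `Kl (pb e ρ) {kk c2 = 0}`, by `bq` there is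
  `d` with `Tv (pb e ρ + cu c2 d)`. `loc_one` at `v ∉ S0`: `iv e (ρ F_v) (ρ t_v) = -B v c2 d`. For `v ∈ S0`, `v ∤ p`: `B v c2 d = 0` (`Spl`). Let `lam` be as in `exists_rec_one`
  (`H63.MA.NormZ`): `∑ᶠ v, lam v * B v c2 d = 0` (`IsRec.sum`, `Prim p c2`), `lam v = 0` above `p`, `lam v = 1` if `nm v` is prime, and `B v c2 d = 0` for `v ∈ T` with `nm v` not prime and
  for `v ∉ T`, `v ∉ S0` (`iv = 0`). So `∑ v ∈ T, B v c2 d = 0`.
-/

set_option autoImplicit false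

open scoped NumberField Pointwise
open IsDedekindDomain

noncomputable section

namespace H57.BRA

open H63.MA H38.BB H38.BG H57.PC

variable {K : Type} [Field K] [NumberField K] {Ω : Type} [Field Ω] [Algebra K Ω] [IsAlgClosure K Ω]
  {p : ℕ} {ζ : K}

/-- the local data outside `S0` -/
theorem br_loc (hp : p.Prime) (hζ : IsPrimitiveRoot ζ p) (hz : Z2 p K) {D : RD0 K p ζ}
    {L : LDs D Ω} (Fr : FR L) {R : Type} [Group R] [Finite R] {e : R → R → ZMod p} (he : Coc p e)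
    {ρ : Gal(Ω/K) →* R} (hρ : H38.ML.FT ρ)
    (htm : ∀ v, v ∉ D.S0 → ∀ τ ∈ inr L v, ρ τ ^ p = 1)
    {v : Pl K} (hvS : v ∉ D.S0) (P' : Ideal (𝓞 Ω)) (hP' : P'.IsPrime)
    (h' : P'.under (𝓞 K) = v.asIdeal) :
    Tm e ρ P' ∧ ∀ F', FrP P' F' → ∀ τ' ∈ P'.inertia Gal(Ω/K), ρ F' * ρ τ' = ρ τ' * ρ F' ∧
      ∃ k j : ℕ, iv e (ρ F') (ρ τ') = k * j * iv e (ρ (Fr.F v)) (ρ (L.t v)) ∧
        ∀ a : Kˣ, ord v a = 0 → kk p ζ a F' = k * lg p ζ v a := by
  have hv : ¬ Above p v := fun h => hvS (D.above v h)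
  have htm' : Tm e ρ (L.ld v hvS).P := fun τ hτ => htm v hvS τ (by
    rw [inr, dif_pos hvS]
    exact hτ)
  have h5 : L.t v = (L.ld v hvS).t := by rw [LDs.t, dif_pos hvS]
  rw [h5]
  exact ltr hp hζ he hρ hv (D.pi_self v hvS) (L.ld v hvS) (isFr_of hp hζ hz Fr v hvS) htm' P' hP' h'

theorem br1 (hp : p.Prime) (hp2 : MOne p K) (hζ : IsPrimitiveRoot ζ p) (hz : Z2 p K) {D : RD0 K p ζ}
    {L : LDs D Ω} (Fr : FR L) {R : Type} [Group R] [Finite R] {e : R → R → ZMod p} (he : Coc p e)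
    {ρ : Gal(Ω/K) →* R} (hρ : H38.ML.FT ρ) {n : ℕ} (c : Fin n → Kˣ)
    (hc : ∀ i, PS p ζ D.S0 (c i)) (hk : Kl (pb e ρ) (Zk p ζ c))
    (htm : ∀ v, v ∉ D.S0 → ∀ τ ∈ inr L v, ρ τ ^ p = 1)
    (hiv : ∀ v, v ∉ D.S0 → iv e (ρ (Fr.F v)) (ρ (L.t v)) = 0) : Tv (pb e ρ) := by
  refine has hp he n K ζ hζ hp2 hz Ω ρ hρ c (fun i => (hc i).1) (fun v hv => ?_) hk
  by_cases hvS : v ∈ D.S0
  · exact Or.inl fun i => (hc i).2 v hvS hv
  · right
    intro P' hP' h'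
    obtain ⟨h1, h2⟩ := br_loc hp hζ hz Fr he hρ htm hvS P' hP' h'
    refine ⟨h1, fun F' hF' τ' hτ' => ?_⟩
    obtain ⟨h3, k, j, h4, -⟩ := h2 F' hF' τ' hτ'
    refine ⟨h3, ?_⟩
    rw [h4, hiv v hvS, mul_zero]

theorem br2 (hp : p.Prime) (hp2 : MOne p K) (hζ : IsPrimitiveRoot ζ p) (hz : Z2 p K) {D : RD0 K p ζ}
    {L : LDs D Ω} (Fr : FR L) {R : Type} [Group R] [Finite R] {e : R → R → ZMod p} (he : Coc p e)
    {ρ : Gal(Ω/K) →* R} (hρ : H38.ML.FT ρ) {n : ℕ} (c : Fin n → Kˣ)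
    (hc : ∀ i, PS p ζ D.S0 (c i)) (hk : Kl (pb e ρ) (Zk p ζ c))
    (htm : ∀ v, v ∉ D.S0 → ∀ τ ∈ inr L v, ρ τ ^ p = 1)
    (T : Finset (Pl K)) (hT : ∀ v ∈ T, v ∉ D.S0)
    (hur : ∀ v, v ∉ D.S0 → v ∉ T → ρ (L.t v) = 1)
    (hnp : ∀ v ∈ T, ¬ (nm v).Prime → iv e (ρ (Fr.F v)) (ρ (L.t v)) = 0) :
    ∑ v ∈ T, iv e (ρ (Fr.F v)) (ρ (L.t v)) = 0 := by
  classical
  rcases T.eq_empty_or_nonempty with rfl | ⟨v₀, hv₀⟩
  · exact Finset.sum_empty
  have hpf : Fact p.Prime := ⟨hp⟩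
  have hna : ∀ v, v ∉ D.S0 → ¬ Above p v := fun v hv h => hv (D.above v h)
  obtain ⟨c2, hc1, hc2, hc3⟩ := aux2 hp hζ (D.S0.filter fun v => ¬ Above p v) T
    (fun v hv => (Finset.mem_filter.1 hv).2) (fun v hv => hna v (hT v hv))
    (fun v hv h => hT v h (Finset.mem_filter.1 hv).1)
  have hcp : ¬ IsPow p c2 := by
    rintro ⟨x, hx⟩
    obtain ⟨h3, h4⟩ := hc3 v₀ hv₀
    have h5 : ord v₀ x = 0 := by
      rw [← hx, ord_pow] at h3
      rcases mul_eq_zero.1 h3 with h | h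
      · exact absurd (by exact_mod_cast h) hp.ne_zero
      · exact h
    rw [← hx, ← zpow_natCast, lg_zpow hp hζ (hna v₀ (hT v₀ hv₀)) h5] at h4
    push_cast at h4
    rw [ZMod.natCast_self, zero_mul] at h4
    exact zero_ne_one h4
  obtain ⟨M, _, _, _, _, _, ⟨H⟩⟩ := bca_exists Ω hp hζ hcp
  have hclo : IsAlgClosure M Ω := bca_clo K M Ω
  have hM : Tv (pb e (ρ.comp (rsK K M Ω))) := by
    refine has hp he n M (algebraMap K M ζ) (GBase_zeta hζ) (mone_map hp2 M) (z2_map hz M) Ω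
      (ρ.comp (rsK K M Ω)) (bca_ft hρ) (fun i => inc K M (c i)) (fun i => bc_prim (hc i).1)
      (fun w hw => ?_) ?_
    · obtain ⟨v, hwv⟩ := exists_below (K := K) w
      have hv : ¬ Above p v := fun h => hw ((above_over hwv p).2 h)
      by_cases hvS : v ∈ D.S0
      · exact Or.inl fun i => bcp_spl hp hζ hwv hv ((hc i).2 v hvS hv)
      · right
        intro P hP hPw
        obtain ⟨h1, h2⟩ := br_loc hp hζ hz Fr he hρ htm hvS P hP (bcp_under hwv hPw)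
        refine ⟨fun τ hτ => h1 _ (bcp_inertia hτ), fun F' hF' τ' hτ' => ?_⟩
        obtain ⟨h3, k, j, h4, h5⟩ := h2 (rsK K M Ω F') (bcp_frp hwv hPw hF') (rsK K M Ω τ')
          (bcp_inertia hτ')
        refine ⟨h3, ?_⟩
        change iv e (ρ (rsK K M Ω F')) (ρ (rsK K M Ω τ')) = 0
        rw [h4]
        by_cases hvT : v ∈ T
        · have h6 := h5 c2 (hc3 v hvT).1
          rw [(hc3 v hvT).2, mul_one, (bca_range hp hζ H _).2 ⟨F', rfl⟩] at h6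
          rw [← h6, zero_mul, zero_mul]
        · rw [hur v hvS hvT, iv_swap, iv_one_left he, neg_zero, mul_zero]
    · obtain ⟨l, hl1, hl2⟩ := hk
      refine ⟨fun σ => l (rsK K M Ω σ), bca_lev hl1, fun σ hσ τ hτ => ?_⟩
      have h1 : ∀ σ : Gal(Ω/M), σ ∈ Zk p (algebraMap K M ζ) (fun i => inc K M (c i)) →
          rsK K M Ω σ ∈ Zk p ζ c := by
        intro σ hσ i
        have h2 := hσ i
        rwa [bca_kk hp hζ] at h2
      simp only [map_mul]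
      exact hl2 _ (h1 σ hσ) _ (h1 τ hτ)
  obtain ⟨l', hl1, hl2⟩ := hM
  obtain ⟨l, hl3, hl4⟩ := bca_lev' (K := K) (L := M) hl1
  obtain ⟨d, hd⟩ := bq hp hζ (c2_pb he hρ) hcp ⟨l, hl3, fun σ hσ τ hτ => by
    obtain ⟨σ', rfl⟩ := (bca_range hp hζ H σ).1 hσ
    obtain ⟨τ', rfl⟩ := (bca_range hp hζ H τ).1 hτ
    rw [← map_mul, hl4, hl4, hl4]
    exact hl2 σ' τ'⟩
  have hB : ∀ v, v ∉ D.S0 → iv e (ρ (Fr.F v)) (ρ (L.t v)) = -B p ζ v c2 d := by
    intro v hvS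
    have htm' : Tm e ρ (L.ld v hvS).P := fun τ hτ => htm v hvS τ (by
      rw [inr, dif_pos hvS]
      exact hτ)
    have h5 : L.t v = (L.ld v hvS).t := by rw [LDs.t, dif_pos hvS]
    have h6 := loc_one hp hp2 hζ he hρ c2 d (hna v hvS) (D.pi_self v hvS) (L.ld v hvS)
      (isFr_of hp hζ hz Fr v hvS) htm' hd
    rw [h5]
    exact eq_neg_of_add_eq_zero_left h6
  obtain ⟨lam, hlam, hone⟩ := exists_rec_one K hp hp2 hζ
  have hsum := hlam.sum c2 hc1 d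
  have hout : ∀ v, v ∉ T → lam v * B p ζ v c2 d = 0 := by
    intro v hvT
    by_cases hva : Above p v
    · rw [hlam.above v hva, zero_mul]
    · by_cases hvS : v ∈ D.S0
      · rw [hc2 v (Finset.mem_filter.2 ⟨hvS, hva⟩) d, mul_zero]
      · have h1 := hB v hvS
        rw [hur v hvS hvT, iv_swap, iv_one_left he, neg_zero] at h1
        rw [neg_eq_zero.1 h1.symm, mul_zero]
  rw [finsum_eq_sum_of_support_subset (s := T) _ (by
    intro v hv
    by_contra hvT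
    exact hv (hout v hvT))] at hsum
  rw [← neg_zero, ← hsum, ← Finset.sum_neg_distrib]
  refine Finset.sum_congr rfl fun v hv => ?_
  by_cases hvp : (nm v).Prime
  · rw [hone v (hna v (hT v hv)) hvp, one_mul, hB v (hT v hv)]
  · have h1 := hnp v hv hvp
    have h2 := hB v (hT v hv)
    rw [h1] at h2
    rw [h1, neg_eq_zero.1 h2.symm, mul_zero, neg_zero]

end H57.BRA
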