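import Pool.Agent.H57.BRA.Def

/-!
# [H57 BRA BQA] a class trivial on a normal subgroup of index p, part 1 (group theory), 150-250 lines. File Pool/Agent/H57/BRA/BQa.lean

`X` a normalised 2-cocycle of finite level, `U = {γ | kk c γ = 0}` (normal subgroup), `kk c s = 1`, `l` of finite level with `l (γ δ) = l γ + l δ + X γ δ` on `U`.

Let `E` be the set of pairs `(σ, z)`, product `(σ, z)(τ, w) = (σ τ, z + w + X σ τ)` (a group, as `Xt` in Def; `(1, z)` central). `λ γ = (γ, l γ)` is a homomorphism on `U`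
(note `l 1 = 0`). `ŝ = (s, 0)`.
* `η γ` := the central element with `ŝ⁻¹ (λ γ) ŝ = (λ (s⁻¹ γ s)) (1, η γ)`; explicit: choose any formula for the `z`-coordinate of `ŝ⁻¹ λ(γ) ŝ` and subtract `l (s⁻¹ γ s)`;
  equivalently `λ(γ) ŝ = ŝ λ(s⁻¹ γ s) (1, η γ)`, i.e. `η γ = l γ + X γ s - l (s⁻¹ γ s) - X s (s⁻¹ γ s)` (use this as the definition, for all `γ`).
  It is additive on `U` (both sides are homomorphisms of `γ ∈ U`).
* `ŝ ^ p = λ (s ^ p) (1, e0)` defines `e0` (`kk c (s ^ p) = p * 1 = 0`).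
* `ŝ ^ (-k) λ(γ) ŝ ^ k = λ (s ^ (-k) γ s ^ k) (1, ∑_{i < k} η (s ^ (-i) γ s ^ i))` by induction. For `k = p` the left side is `λ(s ^ p)⁻¹ λ(γ) λ(s ^ p) = λ(s ^ (-p) γ s ^ p)`,
  so the sum over `i < p` is `0`. `ŝ` commutes with `ŝ ^ p = λ (s ^ p) (1, e0)`, so `η (s ^ p) = 0`.
* `m σ` := the `z`-coordinate of `ŝ ^ i λ(γ)` where `i = (kk c σ).val`, `γ = s ^ (-i) σ ∈ U`. Then for `i, j < p`, `γ, δ ∈ U`:
  `(ŝ ^ i λ γ)(ŝ ^ j λ δ) = ŝ ^ (i + j) (ŝ ^ (-j) λ(γ) ŝ ^ j) λ(δ) = ŝ ^ (i + j) λ (s ^ (-j) γ s ^ j δ) (1, ∑_{k < j} η (s ^ (-k) γ s ^ k))`, and for `i + j ≥ p`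
  `ŝ ^ (i + j) = ŝ ^ (i + j - p) λ(s ^ p) (1, e0)`. Comparing `z`-coordinates gives the formula (`(kk c (s ^ i γ)).val = i` for `i < p`).
* Finite level: let `E` be a finite normal extension containing the levels of `X`, `l`, `kk c` (normal closure in `Ω`; see `gtriv_field` or `IntermediateField.normalClosure`), then
  for `u` in its fixing subgroup (normal): `η (γ u) = η γ`, `m (σ u) = m σ` (`X (s ^ i) (γ u) = X (s ^ i) γ`, `X (γ u) s = X γ s` by `hX.lev`; `s⁻¹ γ u s = (s⁻¹ γ s)(s⁻¹ u s)`).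
-/

set_option autoImplicit false

open scoped NumberField Pointwise
open IsDedekindDomain

noncomputable section

namespace H57.BRA

open H63.MA

section

variable {p : ℕ} {R : Type} [Group R] {e : R → R → ZMod p} {he : Coc p e}

private theorem bqa_mul (x y : Xt e he) : x * y = ⟨x.r * y.r, x.z + y.z + e x.r y.r⟩ := rfl

private def bqaC (e : R → R → ZMod p) (he : Coc p e) (a : ZMod p) : Xt e he := ⟨1, a⟩

private theorem bqaC_mul (a : ZMod p) (x : Xt e he) : bqaC e he a * x = x * bqaC e he a := by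
  rw [bqa_mul, bqa_mul]
  show (⟨1 * x.r, a + x.z + e 1 x.r⟩ : Xt e he) = ⟨x.r * 1, x.z + a + e x.r 1⟩
  rw [he.l1, he.r1, one_mul, mul_one, add_comm a]

private theorem bqaC_add (a b : ZMod p) :
    bqaC e he a * bqaC e he b = bqaC e he (a + b) := by
  rw [bqa_mul]
  show (⟨1 * 1, a + b + e 1 1⟩ : Xt e he) = ⟨1, a + b⟩
  rw [he.l1, one_mul, add_zero]

private theorem bqaC_z (x : Xt e he) (a : ZMod p) : (x * bqaC e he a).z = x.z + a := by
  show x.z + a + e x.r 1 = x.z + a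
  rw [he.r1, add_zero]

private theorem bqaC_zero : bqaC e he 0 = 1 := rfl

private theorem bqa_pow_r (x : Xt e he) (k : ℕ) : (x ^ k).r = x.r ^ k := by
  induction k with
  | zero => rw [pow_zero, pow_zero]; rfl
  | succ k ih => rw [pow_succ, pow_succ, bqa_mul, ih]

variable (e he) in
/-- the lift of `γ` by `l` -/
private def bqaL (l : R → ZMod p) (γ : R) : Xt e he := ⟨γ, l γ⟩

/-- the defect of the conjugation with `s` -/
private def bqaE (e : R → R → ZMod p) (l : R → ZMod p) (s γ : R) : ZMod p :=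
  l γ + e γ s - l (s⁻¹ * γ * s) - e s (s⁻¹ * γ * s)

private theorem bqa_key (l : R → ZMod p) (s γ : R) :
    bqaL e he l γ * (⟨s, 0⟩ : Xt e he) =
      (⟨s, 0⟩ : Xt e he) * bqaL e he l (s⁻¹ * γ * s) * bqaC e he (bqaE e l s γ) := by
  rw [Xt.ext_iff]
  constructor
  · show γ * s = s * (s⁻¹ * γ * s) * 1
    group
  · rw [bqaC_z]
    show l γ + 0 + e γ s = 0 + l (s⁻¹ * γ * s) + e s (s⁻¹ * γ * s) + bqaE e l s γ
    unfold bqaE
    ring

private theorem bqa_conj (s γ : R) (k : ℕ) :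
    s⁻¹ * ((s ^ k)⁻¹ * γ * s ^ k) * s = (s ^ (k + 1))⁻¹ * γ * s ^ (k + 1) := by
  rw [pow_succ, mul_inv_rev]
  group

private theorem bqa_keyk (l : R → ZMod p) (s γ : R) (k : ℕ) :
    bqaL e he l γ * (⟨s, 0⟩ : Xt e he) ^ k =
      (⟨s, 0⟩ : Xt e he) ^ k * bqaL e he l ((s ^ k)⁻¹ * γ * s ^ k) *
        bqaC e he (∑ i ∈ Finset.range k, bqaE e l s ((s ^ i)⁻¹ * γ * s ^ i)) := by
  induction k with
  | zero =>
    rw [Finset.range_zero, Finset.sum_empty, bqaC_zero, mul_one, pow_zero, pow_zero, mul_one,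
      one_mul, inv_one, one_mul, mul_one]
  | succ k ih =>
    rw [Finset.sum_range_succ, pow_succ (⟨s, 0⟩ : Xt e he), ← mul_assoc, ih, mul_assoc,
      bqaC_mul, ← mul_assoc, mul_assoc ((⟨s, 0⟩ : Xt e he) ^ k), bqa_key, bqa_conj,
      ← bqaC_add, bqaC_mul _ (bqaC e he _)]
    simp only [mul_assoc]

private theorem bqaC_inj {x : Xt e he} {a b : ZMod p}
    (h : x * bqaC e he a = x * bqaC e he b) : a = b := by
  have := congrArg Xt.z (mul_left_cancel h)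
  exact this

/-- the group theory -/
private theorem bqa_core (χ : R → ZMod p) (hχ : ∀ σ τ, χ (σ * τ) = χ σ + χ τ)
    {s : R} (hs : χ s = 1) (l : R → ZMod p)
    (hl : ∀ σ τ, χ σ = 0 → χ τ = 0 → l (σ * τ) = l σ + l τ + e σ τ) :
    ∃ e0 : ZMod p,
      (∀ γ δ, χ γ = 0 → χ δ = 0 → bqaE e l s (γ * δ) = bqaE e l s γ + bqaE e l s δ) ∧
      (∀ γ, χ γ = 0 → ∑ k ∈ Finset.range p, bqaE e l s ((s ^ k)⁻¹ * γ * s ^ k) = 0) ∧
      bqaE e l s (s ^ p) = 0 ∧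
      ∀ (i j : ℕ) (γ δ : R), i < p → j < p → χ γ = 0 → χ δ = 0 →
        ((⟨s, 0⟩ : Xt e he) ^ i * bqaL e he l γ) * ((⟨s, 0⟩ : Xt e he) ^ j * bqaL e he l δ) =
          (⟨s, 0⟩ : Xt e he) ^ (if p ≤ i + j then i + j - p else i + j) *
          bqaL e he l ((if p ≤ i + j then s ^ p else 1) * ((s ^ j)⁻¹ * γ * s ^ j * δ)) *
          bqaC e he (∑ k ∈ Finset.range j, bqaE e l s ((s ^ k)⁻¹ * γ * s ^ k) +
            if p ≤ i + j then e0 else 0) := by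
  have h1 : χ 1 = 0 := by
    have := hχ 1 1
    rw [one_mul] at this
    simpa using this
  have hinv : ∀ σ, χ σ⁻¹ = -χ σ := by
    intro σ
    have := hχ σ⁻¹ σ
    rw [inv_mul_cancel, h1] at this
    exact eq_neg_of_add_eq_zero_left this.symm
  have hpow : ∀ k : ℕ, χ (s ^ k) = k := by
    intro k
    induction k with
    | zero => rw [pow_zero, h1, Nat.cast_zero]
    | succ k ih => rw [pow_succ, hχ, ih, hs, Nat.cast_succ]
  have hp0 : χ (s ^ p) = 0 := by rw [hpow, ZMod.natCast_self]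
  have hconj : ∀ (γ : R) (k : ℕ), χ γ = 0 → χ ((s ^ k)⁻¹ * γ * s ^ k) = 0 := by
    intro γ k h
    rw [hχ, hχ, hinv, h]
    ring
  have hconj1 : ∀ γ : R, χ γ = 0 → χ (s⁻¹ * γ * s) = 0 := by
    intro γ h
    have := hconj γ 1 h
    rwa [pow_one] at this
  have hmul : ∀ σ τ, χ σ = 0 → χ τ = 0 →
      bqaL e he l σ * bqaL e he l τ = bqaL e he l (σ * τ) := by
    intro σ τ h h'
    show (⟨σ * τ, l σ + l τ + e σ τ⟩ : Xt e he) = ⟨σ * τ, l (σ * τ)⟩
    rw [hl σ τ h h']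
  obtain ⟨S, hS⟩ : ∃ S : Xt e he, S = ⟨s, 0⟩ := ⟨_, rfl⟩
  have key := fun γ => bqa_key (e := e) (he := he) l s γ
  have keyk := fun γ k => bqa_keyk (e := e) (he := he) l s γ k
  simp only [← hS] at key keyk
  rw [← hS]
  -- the power `p`
  obtain ⟨e0, he0⟩ : ∃ e0 : ZMod p, S ^ p = bqaL e he l (s ^ p) * bqaC e he e0 := by
    refine ⟨(S ^ p).z - l (s ^ p), ?_⟩
    rw [Xt.ext_iff]
    constructor
    · rw [bqa_pow_r, hS]
      show s ^ p = s ^ p * 1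
      rw [mul_one]
    · rw [bqaC_z]
      show _ = l (s ^ p) + _
      ring
  refine ⟨e0, ?_, ?_, ?_, ?_⟩
  · intro γ δ hγ hδ
    have h2 := key (γ * δ)
    rw [← hmul γ δ hγ hδ, mul_assoc, key δ, ← mul_assoc, ← mul_assoc, key γ,
      mul_assoc (S * _), bqaC_mul, ← mul_assoc (S * _), mul_assoc S, hmul _ _ (hconj1 γ hγ)
      (hconj1 δ hδ), mul_assoc (S * _), bqaC_add] at h2
    have h3 : s⁻¹ * γ * s * (s⁻¹ * δ * s) = s⁻¹ * (γ * δ) * s := by group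
    rw [h3] at h2
    exact (bqaC_inj h2).symm
  · intro γ hγ
    have h2 := keyk γ p
    rw [he0, ← mul_assoc, hmul _ _ hγ hp0, mul_assoc (bqaL e he l (s ^ p)), bqaC_mul,
      ← mul_assoc (bqaL e he l (s ^ p)), hmul _ _ hp0 (hconj γ p hγ), mul_assoc, bqaC_add] at h2
    have h3 : s ^ p * ((s ^ p)⁻¹ * γ * s ^ p) = γ * s ^ p := by group
    rw [h3] at h2
    have h4 := bqaC_inj h2
    have h5 : e0 + ∑ i ∈ Finset.range p, bqaE e l s ((s ^ i)⁻¹ * γ * s ^ i) = e0 + 0 := by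
      rw [← h4, add_zero]
    exact add_left_cancel h5
  · have h2 := key (s ^ p)
    have h3 : s⁻¹ * s ^ p * s = s ^ p := by
      rw [mul_assoc, ← pow_succ, pow_succ', inv_mul_cancel_left]
    rw [h3] at h2
    have h4 : S * S ^ p = S ^ p * S := by rw [← pow_succ', pow_succ]
    rw [he0, mul_assoc (bqaL e he l (s ^ p)), bqaC_mul, ← mul_assoc, ← mul_assoc, h2,
      ] at h4
    have h5 := mul_right_cancel h4
    have h6 : S * bqaL e he l (s ^ p) * bqaC e he 0 =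
        S * bqaL e he l (s ^ p) * bqaC e he (bqaE e l s (s ^ p)) := by
      rw [bqaC_zero, mul_one]
      exact h5
    exact (bqaC_inj h6).symm
  · intro i j γ δ hi hj hγ hδ
    have h2 : S ^ i * bqaL e he l γ * (S ^ j * bqaL e he l δ) =
        S ^ (i + j) * bqaL e he l ((s ^ j)⁻¹ * γ * s ^ j * δ) *
          bqaC e he (∑ k ∈ Finset.range j, bqaE e l s ((s ^ k)⁻¹ * γ * s ^ k)) := by
      rw [← mul_assoc, mul_assoc (S ^ i), keyk γ j, ← mul_assoc, ← mul_assoc, ← pow_add,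
        mul_assoc (S ^ (i + j) * _), bqaC_mul, ← mul_assoc, mul_assoc (S ^ (i + j)),
        hmul _ _ (hconj γ j hγ) hδ]
    rw [h2]
    split_ifs with h
    · have h3 : S ^ (i + j) = S ^ (i + j - p) * S ^ p := by
        rw [← pow_add, Nat.sub_add_cancel h]
      have h4 : χ ((s ^ j)⁻¹ * γ * s ^ j * δ) = 0 := by rw [hχ, hconj γ j hγ, hδ, add_zero]
      rw [h3, he0, ← mul_assoc, mul_assoc _ (bqaC e he e0), bqaC_mul, ← mul_assoc,
        mul_assoc (S ^ (i + j - p)) , hmul _ _ hp0 h4, mul_assoc _ (bqaC e he e0), bqaC_add,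
        add_comm e0]
    · rw [one_mul, add_zero]

end


variable {K : Type} [Field K] [NumberField K] {Ω : Type} [Field Ω] [Algebra K Ω] [IsAlgClosure K Ω]
  {p : ℕ} {ζ : K}

omit [NumberField K] [IsAlgClosure K Ω] in
private theorem bqa_inl {E M : IntermediateField K Ω} (h : E ≤ M) {u : Gal(Ω/K)}
    (hu : u ∈ M.fixingSubgroup) : u ∈ E.fixingSubgroup := by
  rw [IntermediateField.mem_fixingSubgroup_iff] at hu ⊢
  exact fun x hx => hu x (h hx)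

theorem bqa (hp : p.Prime) (hζ : IsPrimitiveRoot ζ p) {X : Gal(Ω/K) → Gal(Ω/K) → ZMod p}
    (hX : C2 X) {c : Kˣ} {s : Gal(Ω/K)} (hs : kk p ζ c s = 1) {l : Gal(Ω/K) → ZMod p}
    (hl : Lev l) (hl2 : ∀ σ τ, kk p ζ c σ = 0 → kk p ζ c τ = 0 → l (σ * τ) = l σ + l τ + X σ τ) :
    ∃ (η m : Gal(Ω/K) → ZMod p) (e0 : ZMod p), Lev η ∧ Lev m ∧
      (∀ γ δ, kk p ζ c γ = 0 → kk p ζ c δ = 0 → η (γ * δ) = η γ + η δ) ∧
      (∀ γ, kk p ζ c γ = 0 → ∑ k ∈ Finset.range p, η ((s ^ k)⁻¹ * γ * s ^ k) = 0) ∧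
      η (s ^ p) = 0 ∧
      ∀ (i j : ℕ) (γ δ : Gal(Ω/K)), i < p → j < p → kk p ζ c γ = 0 → kk p ζ c δ = 0 →
        m (s ^ i * γ) + m (s ^ j * δ) + X (s ^ i * γ) (s ^ j * δ) - m (s ^ i * γ * (s ^ j * δ)) =
          ∑ k ∈ Finset.range j, η ((s ^ k)⁻¹ * γ * s ^ k) + if p ≤ i + j then e0 else 0 := by
  obtain ⟨E1, hE1, hX1⟩ := hX.lev
  obtain ⟨E2, hE2, hl1⟩ := hl
  obtain ⟨E3, hE3, hk1⟩ := gtriv_kk (Ω := Ω) hp hζ c
  have hf : FiniteDimensional K (E1 ⊔ E2 ⊔ E3 : IntermediateField K Ω) := by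
    have := IntermediateField.finiteDimensional_sup E1 E2
    exact IntermediateField.finiteDimensional_sup (E1 ⊔ E2) E3
  obtain ⟨M, hMf, hMn, hM, -⟩ := gtriv_field (E1 ⊔ E2 ⊔ E3) (fun _ => (0 : Ω)) fun _ _ _ => rfl
  have m1 : ∀ u ∈ M.fixingSubgroup, u ∈ E1.fixingSubgroup := fun u hu =>
    bqa_inl ((le_sup_left.trans le_sup_left).trans hM) hu
  have m2 : ∀ u ∈ M.fixingSubgroup, u ∈ E2.fixingSubgroup := fun u hu =>
    bqa_inl ((le_sup_right.trans le_sup_left).trans hM) hu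
  have m3 : ∀ u ∈ M.fixingSubgroup, u ∈ E3.fixingSubgroup := fun u hu =>
    bqa_inl (le_sup_right.trans hM) hu
  have mc : ∀ u ∈ M.fixingSubgroup, s⁻¹ * u * s ∈ M.fixingSubgroup := by
    intro u hu
    rw [← IntermediateField.restrictNormalHom_ker] at hu ⊢
    have h := (MonoidHom.normal_ker (AlgEquiv.restrictNormalHom (F := K) (K₁ := Ω) M)).conj_mem
      u hu s⁻¹
    rwa [inv_inv] at h
  have he : Coc p X := ⟨hX.l1, hX.r1, hX.co⟩
  obtain ⟨e0, h1, h2, h3, h4⟩ := bqa_core (e := X) (he := he) (kk p ζ c) (kk_mul c) hs l hl2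
  have hpow : ∀ k : ℕ, kk p ζ c (s ^ k) = k := by
    intro k
    induction k with
    | zero => rw [pow_zero, kk_one, Nat.cast_zero]
    | succ k ih => rw [pow_succ, kk_mul, ih, hs, Nat.cast_succ]
  obtain ⟨m, hm⟩ : ∃ m : Gal(Ω/K) → ZMod p, ∀ σ, m σ =
      ((⟨s, 0⟩ : Xt X he) ^ (kk p ζ c σ).val *
        bqaL X he l ((s ^ (kk p ζ c σ).val)⁻¹ * σ)).z := ⟨_, fun _ => rfl⟩
  have hms : ∀ (i : ℕ) (γ : Gal(Ω/K)), i < p → kk p ζ c γ = 0 →
      m (s ^ i * γ) = ((⟨s, 0⟩ : Xt X he) ^ i * bqaL X he l γ).z := by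
    intro i γ hi hγ
    have h5 : (kk p ζ c (s ^ i * γ)).val = i := by
      rw [kk_mul, hγ, add_zero, hpow, ZMod.val_natCast_of_lt hi]
    rw [hm, h5, inv_mul_cancel_left]
  have hr : ∀ (i : ℕ) (γ : Gal(Ω/K)),
      ((⟨s, 0⟩ : Xt X he) ^ i * bqaL X he l γ).r = s ^ i * γ := by
    intro i γ
    rw [bqa_mul]
    show ((⟨s, 0⟩ : Xt X he) ^ i).r * γ = _
    rw [bqa_pow_r]
  refine ⟨bqaE X l s, m, e0, ⟨M, hMf, fun σ u hu => ?_⟩, ⟨M, hMf, fun σ u hu => ?_⟩, h1, h2, h3,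
    fun i j γ δ hi hj hγ hδ => ?_⟩
  · have h5 : s⁻¹ * (σ * u) * s = s⁻¹ * σ * s * (s⁻¹ * u * s) := by group
    unfold bqaE
    rw [h5, hl1 σ u (m2 u hu), hl1 _ _ (m2 _ (mc u hu)), (hX1 σ s u (m1 u hu)).1,
      (hX1 s (s⁻¹ * σ * s) _ (m1 _ (mc u hu))).2]
  · have h5 : kk p ζ c (σ * u) = kk p ζ c σ := hk1 σ u (m3 u hu)
    rw [hm, hm, h5, ← mul_assoc]
    show _ + l (_ * u) + X _ (_ * u) = _ + l _ + X _ _
    rw [hl1 _ u (m2 u hu), (hX1 _ _ u (m1 u hu)).2]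
    rfl
  · have h5 := h4 i j γ δ hi hj hγ hδ
    have hz := congrArg Xt.z h5
    have hr' := congrArg Xt.r h5
    rw [bqaC_z] at hz
    have hzl : ((⟨s, 0⟩ : Xt X he) ^ i * bqaL X he l γ * ((⟨s, 0⟩ : Xt X he) ^ j *
        bqaL X he l δ)).z = m (s ^ i * γ) + m (s ^ j * δ) + X (s ^ i * γ) (s ^ j * δ) := by
      rw [hms i γ hi hγ, hms j δ hj hδ, ← hr i γ, ← hr j δ]
      rfl
    have hrl : ((⟨s, 0⟩ : Xt X he) ^ i * bqaL X he l γ * ((⟨s, 0⟩ : Xt X he) ^ j *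
        bqaL X he l δ)).r = s ^ i * γ * (s ^ j * δ) := by
      rw [bqa_mul]
      show ((⟨s, 0⟩ : Xt X he) ^ i * bqaL X he l γ).r * ((⟨s, 0⟩ : Xt X he) ^ j *
        bqaL X he l δ).r = _
      rw [hr, hr]
    have hrr : ∀ (x : Xt X he) (a : ZMod p), (x * bqaC X he a).r = x.r := by
      intro x a
      show x.r * 1 = x.r
      rw [mul_one]
    rw [hrl, hrr, hr] at hr'
    have hlt : (if p ≤ i + j then i + j - p else i + j) < p := by
      split_ifs <;> omega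
    have hk0 : kk p ζ c ((if p ≤ i + j then s ^ p else 1) * ((s ^ j)⁻¹ * γ * s ^ j * δ)) = 0 := by
      have h6 : kk p ζ c (if p ≤ i + j then s ^ p else 1) = 0 := by
        split_ifs
        · rw [hpow, ZMod.natCast_self]
        · exact kk_one c
      have h7 : kk p ζ c (s ^ j)⁻¹ + kk p ζ c (s ^ j) = 0 := by
        rw [← kk_mul, inv_mul_cancel, kk_one]
      rw [kk_mul, h6, kk_mul, kk_mul, kk_mul, hγ, hδ]
      linear_combination h7
    have hm2 := hms _ _ hlt hk0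
    rw [← hr'] at hm2
    rw [← hm2, hzl] at hz
    rw [hz]
    ring

end H57.BRA
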