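import Pool.Agent.H57.BRA.BQa

/-!
# [H57 BRA BQB] a class killed by K(c^(1/p)) is a symbol, 150-250 lines. File Pool/Agent/H57/BRA/BQb.lean

`bq`: `X` of finite level, a coboundary on `U = {γ | kk c γ = 0}`, `c` not a `p`-th power. Then `X + cu c d` is a coboundary for some `d ∈ K^*`.

Proof. `s` with `kk c s = 1` exists because `kk c` is not identically `0` (`kk_eq_zero_iff`; or `kk_surj`). Take `η, m, e0` from `bqa`. `kum_sub` for the subgroup `U` and the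
character `γ ↦ η γ` (finite level): `B ≠ 0` with `γ B = ζ ^ (η γ).val * B` for `γ ∈ U`.
`C' = ∏_{k < p} s ^ k B`. For `γ ∈ U`: `γ (s ^ k B) = s ^ k ((s ^ (-k) γ s ^ k) B) = ζ ^ (η (s ^ (-k) γ s ^ k)) s ^ k B`, so `γ C' = C'` by the sum relation; `s C' = C' * (s ^ p B) / B = C'` because
`η (s ^ p) = 0` (`s ^ p ∈ U`). Every `σ` is `s ^ i γ` (`i = (kk c σ).val`), so `C'` is fixed by `Γ`: `C' ∈ K^*` (`gnorm_fixed`). Let `u = C' ζ ^ (-e0) ∈ K^*`, `U0 ^ p = u` in `Ω` (`gkum_root`).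
`Λ σ = (∏_{k < i} s ^ k B) / U0 ^ i` with `i = (kk c σ).val`. For `σ = s ^ i γ`, `τ = s ^ j δ`, `i, j < p`:
`(∏_{k < i} s ^ k B) * σ (∏_{k < j} s ^ k B) = ζ ^ (∑_{k < j} η (s ^ (-k) γ s ^ k)) * ∏_{k < i + j} s ^ k B`, and if `i + j ≥ p` the last product is `C' * ∏_{k < i + j - p} s ^ k B` (`s ^ p B = B`);
`U0 ^ i * σ (U0 ^ j) = ζ ^ (j * kk u σ) U0 ^ (i + j)` and `U0 ^ p = u`. With `X' = ∑_{k < j} η (..) + [p ≤ i + j] e0` (the right side in `bqa`):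
`ζ ^ (X' - kk u σ * kk c τ) * Λ (σ τ) = Λ σ * σ (Λ τ)`. By `tv_of_pre` (`Λ σ ≠ 0`, `Λ` of finite level because it depends only on `kk c σ`) `X' - cu u c` is a coboundary, so
`X - cu u c` is one (add the coboundary of `m`), and `cu c u + cu u c` is one by `tv_swap`. So `d = u`.
-/

set_option autoImplicit false

open scoped NumberField Pointwise
open IsDedekindDomain

noncomputable section

namespace H57.BRA

open H63.MA

variable {K : Type} [Field K] [NumberField K] {Ω : Type} [Field Ω] [Algebra K Ω] [IsAlgClosure K Ω]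
  {p : ℕ} {ζ : K}

private theorem bqb_zp (hp : p.Prime) (hζ : IsPrimitiveRoot ζ p) (n : ℕ) :
    algebraMap K Ω ζ ^ n = algebraMap K Ω ζ ^ ((n : ZMod p)).val := by
  have h1 : algebraMap K Ω ζ ^ p = 1 := by rw [← map_pow, hζ.pow_eq_one, map_one]
  rw [ZMod.val_natCast, ← pow_eq_pow_mod _ h1]

private theorem bqb_kpow (c : Kˣ) (s : Gal(Ω/K)) (n : ℕ) :
    kk p ζ c (s ^ n) = n * kk p ζ c s := by
  induction n with
  | zero => rw [pow_zero, kk_one, Nat.cast_zero, zero_mul]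
  | succ n ih => rw [pow_succ, kk_mul, ih]; push_cast; ring

private theorem bqb_kinv (c : Kˣ) (s : Gal(Ω/K)) : kk p ζ c s⁻¹ = - kk p ζ c s := by
  have h1 := kk_mul (p := p) (ζ := ζ) c s⁻¹ s
  rw [inv_mul_cancel, kk_one] at h1
  exact (neg_eq_of_add_eq_zero_left h1.symm).symm

private theorem bqb_s (hp : p.Prime) (hζ : IsPrimitiveRoot ζ p) {c : Kˣ} (hc : ¬ IsPow p c) :
    ∃ s : Gal(Ω/K), kk p ζ c s = 1 := by
  have : Fact p.Prime := ⟨hp⟩
  have h1 : ¬ ∀ σ : Gal(Ω/K), kk p ζ c σ = 0 := fun h => hc ((kk_eq_zero_iff hp hζ c).1 h)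
  push Not at h1
  obtain ⟨σ, hσ⟩ := h1
  refine ⟨σ ^ ((kk p ζ c σ)⁻¹).val, ?_⟩
  rw [bqb_kpow, ZMod.natCast_zmod_val]
  exact inv_mul_cancel₀ hσ

private theorem bqb_conj (c : Kˣ) (s γ : Gal(Ω/K)) (k : ℕ) (h : kk p ζ c γ = 0) :
    kk p ζ c ((s ^ k)⁻¹ * γ * s ^ k) = 0 := by
  rw [kk_mul, kk_mul, bqb_kinv, h]
  ring

/-- the product of the conjugates `s ^ k B`, `k < i` -/
private def bqbP (s : Gal(Ω/K)) (B : Ω) (i : ℕ) : Ω := ∏ k ∈ Finset.range i, (s ^ k) B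

private theorem bqb_add (s : Gal(Ω/K)) (B : Ω) (i j : ℕ) :
    bqbP s B i * (s ^ i) (bqbP s B j) = bqbP s B (i + j) := by
  unfold bqbP
  rw [Finset.prod_range_add, map_prod]
  congr 1
  refine Finset.prod_congr rfl fun k _ => ?_
  rw [pow_add, AlgEquiv.mul_apply]

private theorem bqb_ne (s : Gal(Ω/K)) {B : Ω} (hB : B ≠ 0) (i : ℕ) : bqbP s B i ≠ 0 := by
  unfold bqbP
  exact Finset.prod_ne_zero_iff.2 fun k _ => (map_ne_zero_iff _ (s ^ k).injective).2 hB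

private theorem bqb_act (hp : p.Prime) (hζ : IsPrimitiveRoot ζ p) {c : Kˣ} {s : Gal(Ω/K)} {B : Ω}
    {η : Gal(Ω/K) → ZMod p}
    (hBη : ∀ γ, kk p ζ c γ = 0 → γ B = algebraMap K Ω ζ ^ (η γ).val * B)
    (γ : Gal(Ω/K)) (hγ : kk p ζ c γ = 0) (i : ℕ) :
    γ (bqbP s B i) =
      algebraMap K Ω ζ ^ (∑ k ∈ Finset.range i, η ((s ^ k)⁻¹ * γ * s ^ k)).val * bqbP s B i := by
  have : NeZero p := ⟨hp.ne_zero⟩
  induction i with
  | zero => simp [bqbP]
  | succ i ih =>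
    have e1 : bqbP s B (i + 1) = bqbP s B i * (s ^ i) B := by
      unfold bqbP
      rw [Finset.prod_range_succ]
    have e2 : γ ((s ^ i) B) =
        algebraMap K Ω ζ ^ (η ((s ^ i)⁻¹ * γ * s ^ i)).val * (s ^ i) B := by
      have e3 : γ ((s ^ i) B) = (s ^ i) (((s ^ i)⁻¹ * γ * s ^ i) B) := by
        rw [← AlgEquiv.mul_apply, ← AlgEquiv.mul_apply]
        congr 1
        group
      rw [e3, hBη _ (bqb_conj c s γ i hγ), map_mul, map_pow, AlgEquiv.commutes]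
    rw [e1, map_mul, ih, e2, Finset.sum_range_succ, gkus_pow_add hζ hp]
    ring

private theorem bqb_rep (hp : p.Prime) {c : Kˣ} {s : Gal(Ω/K)} (hs : kk p ζ c s = 1)
    (σ : Gal(Ω/K)) : ∃ (i : ℕ) (γ : Gal(Ω/K)), i < p ∧ kk p ζ c γ = 0 ∧ σ = s ^ i * γ ∧
      (kk p ζ c σ).val = i := by
  have : NeZero p := ⟨hp.ne_zero⟩
  refine ⟨(kk p ζ c σ).val, (s ^ (kk p ζ c σ).val)⁻¹ * σ, ZMod.val_lt _, ?_, ?_, rfl⟩
  · rw [kk_mul, bqb_kinv, bqb_kpow, hs, mul_one, ZMod.natCast_zmod_val, neg_add_cancel]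
  · group

theorem bq (hp : p.Prime) (hζ : IsPrimitiveRoot ζ p) {X : Gal(Ω/K) → Gal(Ω/K) → ZMod p}
    (hX : C2 X) {c : Kˣ} (hc : ¬ IsPow p c) (hk : Kl X {σ : Gal(Ω/K) | kk p ζ c σ = 0}) :
    ∃ d : Kˣ, Tv (fun σ τ : Gal(Ω/K) => X σ τ + cu p ζ c d σ τ) := by
  classical
  have hp0 : NeZero p := ⟨hp.ne_zero⟩
  obtain ⟨s, hs⟩ := bqb_s (Ω := Ω) hp hζ hc
  obtain ⟨l, hl, hl2⟩ := hk
  obtain ⟨η, m, e0, hηL, hmL, hηa, hηs, hηp, hform⟩ :=
    bqa hp hζ hX hs hl (fun σ τ h1 h2 => hl2 σ h1 τ h2)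
  have hη1 : η 1 = 0 := by
    have h := hηa 1 1 (kk_one c) (kk_one c)
    rw [mul_one] at h
    exact left_eq_add.1 h
  -- the subgroup and its character
  obtain ⟨U, hU⟩ : ∃ U : Subgroup Gal(Ω/K), ∀ σ, σ ∈ U ↔ kk p ζ c σ = 0 := by
    refine ⟨{ carrier := {σ | kk p ζ c σ = 0}
              mul_mem' := ?_
              one_mem' := kk_one c
              inv_mem' := ?_ }, fun σ => Iff.rfl⟩
    · intro a b ha hb
      change kk p ζ c (a * b) = 0
      change kk p ζ c a = 0 at ha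
      change kk p ζ c b = 0 at hb
      rw [kk_mul, ha, hb, add_zero]
    · intro a ha
      change kk p ζ c a⁻¹ = 0
      change kk p ζ c a = 0 at ha
      rw [bqb_kinv, ha, neg_zero]
  obtain ⟨χ, hχ⟩ : ∃ χ : U →* Multiplicative (ZMod p), ∀ u : U,
      Multiplicative.toAdd (χ u) = η (u : Gal(Ω/K)) := by
    refine ⟨{ toFun := fun u => Multiplicative.ofAdd (η (u : Gal(Ω/K)))
              map_one' := ?_
              map_mul' := ?_ }, fun u => rfl⟩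
    · change Multiplicative.ofAdd (η 1) = 1
      rw [hη1]
      rfl
    · intro a b
      change Multiplicative.ofAdd (η ((a : Gal(Ω/K)) * b)) = _
      rw [hηa _ _ ((hU _).1 a.2) ((hU _).1 b.2)]
      rfl
  obtain ⟨E, hE, hE1⟩ := hηL
  obtain ⟨B, hB0, hB⟩ := kum_sub hp hζ U χ E (fun u hu => by
    have h1 := hE1 1 _ hu
    rw [one_mul, hη1, ← hχ] at h1
    exact Multiplicative.toAdd.injective h1)
  have hBη : ∀ γ, kk p ζ c γ = 0 → γ B = algebraMap K Ω ζ ^ (η γ).val * B := by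
    intro γ hγ
    have h1 := hB ⟨γ, (hU γ).2 hγ⟩
    rw [hχ] at h1
    exact h1
  -- `s ^ p B = B`
  have hsp : kk p ζ c (s ^ p) = 0 := by
    rw [bqb_kpow, hs, mul_one, ZMod.natCast_self]
  have hspB : (s ^ p) B = B := by
    rw [hBη _ hsp, hηp, ZMod.val_zero, pow_zero, one_mul]
  have hper : ∀ r, bqbP s B (p + r) = bqbP s B p * bqbP s B r := by
    intro r
    rw [← bqb_add]
    congr 1
    unfold bqbP
    rw [map_prod]
    refine Finset.prod_congr rfl fun k _ => ?_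
    rw [← AlgEquiv.mul_apply, ← pow_add, add_comm, pow_add, AlgEquiv.mul_apply, hspB]
  have hC0 : bqbP s B p ≠ 0 := bqb_ne s hB0 p
  -- `C'` is fixed by `s ^ i`
  have hCs : ∀ i, (s ^ i) (bqbP s B p) = bqbP s B p := by
    intro i
    have h1 := bqb_add s B i p
    rw [add_comm i p, hper] at h1
    have h2 := bqb_ne s hB0 i
    rw [mul_comm (bqbP s B p)] at h1
    exact mul_left_cancel₀ h2 h1
  have hCγ : ∀ γ, kk p ζ c γ = 0 → γ (bqbP s B p) = bqbP s B p := by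
    intro γ hγ
    rw [bqb_act hp hζ hBη γ hγ p, hηs γ hγ, ZMod.val_zero, pow_zero, one_mul]
  obtain ⟨k0, hk0⟩ := gnorm_fixed (K := K) (bqbP s B p) (fun σ => by
    obtain ⟨i, γ, hi, hγ, rfl, -⟩ := bqb_rep hp hs σ
    rw [AlgEquiv.mul_apply, hCγ γ hγ, hCs i])
  have hk00 : k0 ≠ 0 := by
    rintro rfl
    rw [map_zero] at hk0
    exact hC0 hk0.symm
  have hζ0 : ζ ≠ 0 := hζ.ne_zero hp.ne_zero
  have hz0 : algebraMap K Ω ζ ≠ 0 := by
    rw [Ne, map_eq_zero]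
    exact hζ0
  obtain ⟨u, hu⟩ : ∃ u : Kˣ, (u : K) * ζ ^ e0.val = k0 := by
    refine ⟨Units.mk0 (k0 * (ζ ^ e0.val)⁻¹) (mul_ne_zero hk00 (inv_ne_zero (pow_ne_zero _ hζ0))), ?_⟩
    rw [Units.val_mk0, mul_assoc, inv_mul_cancel₀ (pow_ne_zero _ hζ0), mul_one]
  obtain ⟨U0, hU0⟩ := gkum_root (K := K) (Ω := Ω) hp u
  have hU00 : U0 ≠ 0 := gkum_ne hp u U0 hU0
  have hCu : bqbP s B p = U0 ^ p * algebraMap K Ω ζ ^ e0.val := by
    rw [← hk0, ← hu, map_mul, map_pow, hU0]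
  -- the 1-cochain
  have hT : Tv (fun σ τ : Gal(Ω/K) =>
      (m σ + m τ + X σ τ - m (σ * τ)) - cu p ζ u c σ τ) := by
    refine tv_of_pre hp hζ _ (fun σ => bqbP s B (kk p ζ c σ).val / U0 ^ (kk p ζ c σ).val)
      (fun σ => div_ne_zero (bqb_ne s hB0 _) (pow_ne_zero _ hU00)) ?_ ?_
    · exact gtriv_lev (gtriv_kk hp hζ c) (gtriv_kk hp hζ c)
        (fun x _ => bqbP s B x.val / U0 ^ x.val)
    · intro σ τ
      obtain ⟨i, γ, hi, hγ, hσ, hiv⟩ := bqb_rep hp hs σ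
      obtain ⟨j, δ, hj, hδ, hτ, hjv⟩ := bqb_rep hp hs τ
      have hkσ : kk p ζ c σ = (i : ZMod p) := by rw [← hiv, ZMod.natCast_zmod_val]
      have hkτ : kk p ζ c τ = (j : ZMod p) := by rw [← hjv, ZMod.natCast_zmod_val]
      have hf := hform i j γ δ hi hj hγ hδ
      rw [← hσ, ← hτ] at hf
      obtain ⟨S, hS⟩ : ∃ S, S = ∑ k ∈ Finset.range j, η ((s ^ k)⁻¹ * γ * s ^ k) := ⟨_, rfl⟩
      rw [← hS] at hf
      -- left side
      have hσP : σ (bqbP s B j) = algebraMap K Ω ζ ^ S.val * (s ^ i) (bqbP s B j) := by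
        rw [hσ, AlgEquiv.mul_apply, bqb_act hp hζ hBη γ hγ j, map_mul, map_pow,
          AlgEquiv.commutes, ← hS]
      have hσU : σ (U0 ^ j) = algebraMap K Ω ζ ^ (kk p ζ u σ * j).val * U0 ^ j := by
        rw [map_pow, kk_root hp hζ u U0 hU0 σ, mul_pow, ← pow_mul, bqb_zp hp hζ]
        push_cast
        rw [ZMod.natCast_zmod_val]
      have hcu : cu p ζ u c σ τ = kk p ζ u σ * j := by
        unfold cu
        rw [hkτ]
      have hlhs : bqbP s B i / U0 ^ i * σ (bqbP s B j / U0 ^ j) *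
          algebraMap K Ω ζ ^ (kk p ζ u σ * j).val =
          algebraMap K Ω ζ ^ S.val * (bqbP s B (i + j) / U0 ^ (i + j)) := by
        rw [map_div₀, hσP, hσU, ← bqb_add, pow_add]
        have hz1 : algebraMap K Ω ζ ^ (kk p ζ u σ * j).val ≠ 0 := pow_ne_zero _ hz0
        field_simp
      have hz1 : algebraMap K Ω ζ ^ (kk p ζ u σ * (j : ZMod p)).val ≠ 0 := pow_ne_zero _ hz0
      have hkστ : kk p ζ c (σ * τ) = ((i + j : ℕ) : ZMod p) := by
        rw [kk_mul, hkσ, hkτ, Nat.cast_add]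
      have hmain : ∀ (Y : ZMod p) (r : ℕ), (kk p ζ c (σ * τ)).val = r →
          bqbP s B (i + j) / U0 ^ (i + j) =
            algebraMap K Ω ζ ^ Y.val * (bqbP s B r / U0 ^ r) →
          m σ + m τ + X σ τ - m (σ * τ) = S + Y →
          algebraMap K Ω ζ ^ ((m σ + m τ + X σ τ - m (σ * τ)) - cu p ζ u c σ τ).val *
            (bqbP s B (kk p ζ c (σ * τ)).val / U0 ^ (kk p ζ c (σ * τ)).val) =
          bqbP s B (kk p ζ c σ).val / U0 ^ (kk p ζ c σ).val *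
            σ (bqbP s B (kk p ζ c τ).val / U0 ^ (kk p ζ c τ).val) := by
        intro Y r hr h1 h2
        rw [hr, hiv, hjv, h2, hcu]
        apply mul_right_cancel₀ hz1
        rw [hlhs, h1]
        have h3 : algebraMap K Ω ζ ^ (S + Y - kk p ζ u σ * j).val *
            algebraMap K Ω ζ ^ (kk p ζ u σ * j).val =
            algebraMap K Ω ζ ^ S.val * algebraMap K Ω ζ ^ Y.val := by
          rw [← gkus_pow_add hζ hp, ← gkus_pow_add hζ hp, sub_add_cancel]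
        calc algebraMap K Ω ζ ^ (S + Y - kk p ζ u σ * j).val * (bqbP s B r / U0 ^ r) *
              algebraMap K Ω ζ ^ (kk p ζ u σ * j).val
            = (algebraMap K Ω ζ ^ (S + Y - kk p ζ u σ * j).val *
              algebraMap K Ω ζ ^ (kk p ζ u σ * j).val) * (bqbP s B r / U0 ^ r) := by ring
          _ = algebraMap K Ω ζ ^ S.val * (algebraMap K Ω ζ ^ Y.val * (bqbP s B r / U0 ^ r)) := by
            rw [h3]; ring
      by_cases hij : p ≤ i + j
      · rw [if_pos hij] at hf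
        refine hmain e0 (i + j - p) ?_ ?_ hf
        · rw [hkστ, ZMod.val_natCast]
          rw [Nat.mod_eq_sub_mod hij, Nat.mod_eq_of_lt (by omega)]
        · obtain ⟨r, hr⟩ := Nat.exists_eq_add_of_le hij
          rw [hr, hper, Nat.add_sub_cancel_left, pow_add, hCu]
          have h5 : U0 ^ p ≠ 0 := pow_ne_zero _ hU00
          field_simp
      · rw [if_neg hij, add_zero] at hf
        refine hmain 0 (i + j) ?_ ?_ (by rw [hf, add_zero])
        · rw [hkστ, ZMod.val_natCast, Nat.mod_eq_of_lt (by omega)]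
        · rw [ZMod.val_zero, pow_zero, one_mul]
  refine ⟨u, ?_⟩
  obtain ⟨l1, hl1, hl1'⟩ := hT
  obtain ⟨l3, hl3, hl3'⟩ := tv_swap (Ω := Ω) hp hζ c u
  refine ⟨fun σ => (l1 σ + m σ) + l3 σ,
    gtriv_lev (gtriv_lev hl1 hmL (fun x y => x + y)) hl3 (fun x y => x + y), fun σ τ => ?_⟩
  have h1 := hl1' σ τ
  have h2 := hl3' σ τ
  simp only at h1 h2 ⊢
  rw [h1, h2]
  ring

end H57.BRA
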