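import Pool.Agent.H57.BRA.Def

/-!
# [H57 BRA BCA] base change to a Kummer extension inside Ω, 150-250 lines. File Pool/Agent/H57/BRA/Bca.lean

`L` is an abstract number field, Kummer extension of degree `p` of `K` (`Kum p K ζ c L`), with an embedding in `Ω` (`[Algebra L Ω] [IsScalarTower K L Ω]`).
`rsK : Gal(Ω/L) →* Gal(Ω/K)` is the restriction of scalars.
* `bca_exists`: `kum_exists`, then `L →ₐ[K] Ω` by `IsAlgClosed.lift` (`L/K` finite: `Algebra.IsAlgebraic`), `Algebra L Ω := RingHom.toAlgebra`, scalar tower by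
  `IsScalarTower.of_algebraMap_eq` (the homomorphism is `K`-linear).
* `bca_clo`: `IsAlgClosure L Ω`: `Ω` is algebraically closed and algebraic over `K`, so over `L` (`Algebra.IsAlgebraic.tower_top`).
* `bca_kk`: `B ∈ Ω`, `B ^ p = a`: use `kk_root` over `K` and `kk_of_root` over `L` (needs `IsAlgClosure L Ω`; it is an instance argument here).
* `bca_range`: `kk c σ = 0` iff `σ` fixes the image of `H.γ` (`kk_root`, `gkum_key` or `kk_of_root`) iff `σ` fixes the image of `L` (`kuma_top` or `gnorm_ext`: `σ ∘ algebraMap` and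
  `algebraMap` agree on `K` and on `H.γ`), then `σ` is `L`-linear: `AlgEquiv.ofRingEquiv` or `{σ with commutes' := ..}`.
* `bca_lev`: if `f` is of level `E` (finite over `K`), then `f ∘ rsK` is of level the compositum of `E` with `L` (finite over `L`): e.g. take a finite generating set of `E/K` and adjoin it
  to `L` (`IntermediateField.adjoin L (E : Set Ω)`, finite because generated by finitely many algebraic elements, `IntermediateField.finiteDimensional_adjoin`).
* `bca_lev'`: `g : Gal(Ω/L) → X` of level `M` (finite over `L`). `M.restrictScalars K` is finite over `K` (`FiniteDimensional.trans`), contains the image of `L`. Define `f σ = g σ'` if `σ = rsK σ'`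
  (`rsK` injective), `f σ = x0` otherwise (`x0 = g 1`). For `u` fixing `M.restrictScalars K`: `u` fixes the image of `L`, `u = rsK u'`, `σ u` is in the range iff `σ` is.
* `bca_ft`: as `bca_lev`.
-/

set_option autoImplicit false

open scoped NumberField Pointwise
open IsDedekindDomain

noncomputable section

namespace H57.BRA

open H63.MA

/-- restriction of scalars -/
def rsK (K L Ω : Type) [Field K] [Field L] [Field Ω] [Algebra K L] [Algebra K Ω] [Algebra L Ω]
    [IsScalarTower K L Ω] : Gal(Ω/L) →* Gal(Ω/K) := AlgEquiv.restrictScalarsHom K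

theorem rsK_apply {K L Ω : Type} [Field K] [Field L] [Field Ω] [Algebra K L] [Algebra K Ω]
    [Algebra L Ω] [IsScalarTower K L Ω] (σ : Gal(Ω/L)) (x : Ω) : rsK K L Ω σ x = σ x := rfl

theorem rsK_inj {K L Ω : Type} [Field K] [Field L] [Field Ω] [Algebra K L] [Algebra K Ω]
    [Algebra L Ω] [IsScalarTower K L Ω] : Function.Injective (rsK K L Ω) := by
  intro σ τ h
  ext x
  rw [← rsK_apply (K := K) σ x, h, rsK_apply]

theorem bca_clo (K L Ω : Type) [Field K] [Field L] [Field Ω] [Algebra K L] [Algebra K Ω]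
    [Algebra L Ω] [IsScalarTower K L Ω] [IsAlgClosure K Ω] : IsAlgClosure L Ω := by
  have h1 : IsAlgClosed Ω := IsAlgClosure.isAlgClosed K
  have h2 : Algebra.IsAlgebraic K Ω := IsAlgClosure.isAlgebraic
  exact ⟨h1, Algebra.IsAlgebraic.tower_top (K := K) L⟩

theorem bca_exists {K : Type} [Field K] [NumberField K] (Ω : Type) [Field Ω] [Algebra K Ω]
    [IsAlgClosure K Ω] {p : ℕ} (hp : p.Prime) {ζ : K} (hζ : IsPrimitiveRoot ζ p) {c : Kˣ}
    (hc : ¬ IsPow p c) : ∃ (L : Type) (_ : Field L) (_ : NumberField L) (_ : Algebra K L)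
      (_ : Algebra L Ω) (_ : IsScalarTower K L Ω), Nonempty (Kum p K ζ c L) := by
  obtain ⟨L, i1, i2, i3, ⟨H⟩⟩ := kum_exists hp hζ hc
  have h1 : IsAlgClosed Ω := IsAlgClosure.isAlgClosed K
  have h2 : FiniteDimensional K L := by
    apply FiniteDimensional.of_finrank_pos
    rw [H.deg]
    exact hp.pos
  obtain ⟨f⟩ : Nonempty (L →ₐ[K] Ω) := ⟨IsAlgClosed.lift⟩
  let i4 : Algebra L Ω := f.toRingHom.toAlgebra
  refine ⟨L, i1, i2, i3, i4, ?_, ⟨H⟩⟩
  exact IsScalarTower.of_algebraMap_eq fun x => (f.commutes x).symm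

/-- an automorphism which fixes the image of `L` is `L`-linear -/
private theorem bca_lin {K L Ω : Type} [Field K] [Field L] [Field Ω] [Algebra K L] [Algebra K Ω]
    [Algebra L Ω] [IsScalarTower K L Ω] (u : Gal(Ω/K))
    (hu : ∀ x : L, u (algebraMap L Ω x) = algebraMap L Ω x) : ∃ u' : Gal(Ω/L), rsK K L Ω u' = u := by
  refine ⟨AlgEquiv.ofRingEquiv (f := (u : Ω ≃+* Ω)) hu, ?_⟩
  ext x
  rw [rsK_apply]
  rfl

/-- compositum -/
private theorem bca_comp {K L Ω : Type} [Field K] [Field L] [Field Ω] [Algebra K L] [Algebra K Ω]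
    [Algebra L Ω] [IsScalarTower K L Ω] [IsAlgClosure L Ω] (E : IntermediateField K Ω)
    (hE : FiniteDimensional K E) : ∃ M : IntermediateField L Ω, FiniteDimensional L M ∧
      ∀ u ∈ M.fixingSubgroup, rsK K L Ω u ∈ E.fixingSubgroup := by
  have h2 : Algebra.IsAlgebraic L Ω := IsAlgClosure.isAlgebraic
  obtain ⟨b, hb⟩ : ∃ b : Module.Basis (Fin (Module.finrank K E)) K E, b = Module.finBasis K E :=
    ⟨_, rfl⟩
  refine ⟨IntermediateField.adjoin L (Set.range fun i => ((b i : E) : Ω)), ?_, ?_⟩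
  · exact IntermediateField.finiteDimensional_adjoin fun x _ =>
      (Algebra.IsAlgebraic.isAlgebraic x).isIntegral
  · intro u hu
    rw [IntermediateField.mem_fixingSubgroup_iff] at hu ⊢
    intro x hx
    obtain ⟨g, h3⟩ : ∃ g : Fin (Module.finrank K E) → K, x = ∑ i, g i • ((b i : E) : Ω) := by
      refine ⟨fun i => b.repr ⟨x, hx⟩ i, ?_⟩
      have h4 := congrArg (fun y : E => (y : Ω)) (b.sum_repr ⟨x, hx⟩)
      simp only at h4
      refine h4.symm.trans ?_
      push_cast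
      rfl
    rw [h3, map_sum]
    refine Finset.sum_congr rfl fun i _ => ?_
    rw [map_smul, rsK_apply, hu _ (IntermediateField.subset_adjoin _ _ ⟨i, rfl⟩)]

variable {K : Type} [Field K] [NumberField K] {L : Type} [Field L] [NumberField L] [Algebra K L]
  {Ω : Type} [Field Ω] [Algebra K Ω] [Algebra L Ω] [IsScalarTower K L Ω] [IsAlgClosure K Ω]
  [IsAlgClosure L Ω] {p : ℕ} {ζ : K}

theorem bca_kk (hp : p.Prime) (hζ : IsPrimitiveRoot ζ p) (a : Kˣ) (σ : Gal(Ω/L)) :
    kk p (algebraMap K L ζ) (inc K L a) σ = kk p ζ a (rsK K L Ω σ) := by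
  obtain ⟨B, hB⟩ := gkum_root (K := K) (Ω := Ω) hp a
  have h1 := kk_root hp hζ a B hB (rsK K L Ω σ)
  have hB' : B ^ p = algebraMap L Ω ((inc K L a : Lˣ) : L) := by
    rw [hB]
    exact IsScalarTower.algebraMap_apply K L Ω (a : K)
  have h2 := kk_of_root hp (hζ.map_of_injective (algebraMap K L).injective) (inc K L a) B hB' σ
    ((kk p ζ a (rsK K L Ω σ)).val : ℤ) (by
      rw [zpow_natCast, ← IsScalarTower.algebraMap_apply K L Ω, ← h1, rsK_apply])
  rw [h2, gkum_val hp]

theorem bca_range (hp : p.Prime) (hζ : IsPrimitiveRoot ζ p) {c : Kˣ} (H : Kum p K ζ c L)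
    (σ : Gal(Ω/K)) : kk p ζ c σ = 0 ↔ ∃ σ' : Gal(Ω/L), rsK K L Ω σ' = σ := by
  have hp0 : NeZero p := ⟨hp.ne_zero⟩
  have hB : (algebraMap L Ω (H.γ : L)) ^ p = algebraMap K Ω (c : K) := by
    rw [← map_pow, H.hγ, ← IsScalarTower.algebraMap_apply K L Ω]
  constructor
  · intro h
    apply bca_lin
    have h1 := kk_root hp hζ c _ hB σ
    rw [h, ZMod.val_zero, pow_zero, one_mul] at h1
    have h2 := gnorm_ext hp hζ H (((σ : Ω ≃+* Ω) : Ω →+* Ω).comp (algebraMap L Ω))
      (algebraMap L Ω) (fun k => by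
        rw [RingHom.comp_apply, ← IsScalarTower.algebraMap_apply K L Ω]
        exact σ.commutes k) h1
    intro x
    exact RingHom.congr_fun h2 x
  · rintro ⟨σ', rfl⟩
    have h1 := kk_of_root hp hζ c _ hB (rsK K L Ω σ') 0 (by
      rw [zpow_zero, one_mul, rsK_apply]
      exact σ'.commutes _)
    rw [h1, Int.cast_zero]

theorem bca_lev {X : Type} {f : Gal(Ω/K) → X} (hf : Lev f) :
    Lev fun σ : Gal(Ω/L) => f (rsK K L Ω σ) := by
  obtain ⟨E, hE, hfE⟩ := hf
  obtain ⟨M, hM, hME⟩ := bca_comp (L := L) E hE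
  refine ⟨M, hM, fun σ u hu => ?_⟩
  change f (rsK K L Ω (σ * u)) = f (rsK K L Ω σ)
  rw [map_mul]
  exact hfE _ _ (hME u hu)

theorem bca_lev' {X : Type} {g : Gal(Ω/L) → X} (hg : Lev g) :
    ∃ f : Gal(Ω/K) → X, Lev f ∧ ∀ σ : Gal(Ω/L), f (rsK K L Ω σ) = g σ := by
  classical
  obtain ⟨M, hM, hgM⟩ := hg
  obtain ⟨f, hf⟩ : ∃ f : Gal(Ω/K) → X, f = fun σ =>
      if h : ∃ σ' : Gal(Ω/L), rsK K L Ω σ' = σ then g h.choose else g 1 := ⟨_, rfl⟩
  have hf1 : ∀ σ : Gal(Ω/L), f (rsK K L Ω σ) = g σ := by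
    intro σ
    have hex : ∃ σ' : Gal(Ω/L), rsK K L Ω σ' = rsK K L Ω σ := ⟨σ, rfl⟩
    rw [hf]
    simp only
    rw [dif_pos hex, rsK_inj hex.choose_spec]
  have hf2 : ∀ σ : Gal(Ω/K), (¬ ∃ σ' : Gal(Ω/L), rsK K L Ω σ' = σ) → f σ = g 1 := by
    intro σ h
    rw [hf]
    simp only
    rw [dif_neg h]
  refine ⟨f, ⟨M.restrictScalars K, ?_, ?_⟩, hf1⟩
  · have h1 : FiniteDimensional K L := Module.Finite.of_restrictScalars_finite ℚ K L
    have h2 : FiniteDimensional K M := Module.Finite.trans L M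
    exact h2
  · intro σ u hu
    rw [IntermediateField.mem_fixingSubgroup_iff] at hu
    obtain ⟨u', rfl⟩ := bca_lin (L := L) u fun x => hu _ (M.algebraMap_mem x)
    have hu' : u' ∈ M.fixingSubgroup := by
      rw [IntermediateField.mem_fixingSubgroup_iff]
      intro x hx
      exact hu x hx
    by_cases h : ∃ σ' : Gal(Ω/L), rsK K L Ω σ' = σ
    · obtain ⟨σ', rfl⟩ := h
      rw [← map_mul, hf1, hf1]
      exact hgM _ _ hu'
    · rw [hf2 σ h, hf2]
      rintro ⟨τ, hτ⟩
      apply h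
      refine ⟨τ * u'⁻¹, ?_⟩
      rw [map_mul, hτ, map_inv, mul_inv_cancel_right]

theorem bca_ft {G : Type} [Group G] {φ : Gal(Ω/K) →* G} (hφ : H38.ML.FT φ) :
    H38.ML.FT (φ.comp (rsK K L Ω)) := by
  obtain ⟨E, hE, hfE⟩ := hφ
  obtain ⟨M, hM, hME⟩ := bca_comp (L := L) E hE
  refine ⟨M, hM, fun u hu => ?_⟩
  exact hfE (hME u hu)

end H57.BRA
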