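import Pool.Agent.H57.BRA.Loc
import Pool.Agent.H57.BRA.BQb
import Pool.Agent.H57.BRA.Bcp

/-!
# [H57 BRA HAS] Hasse principle for classes killed by a Kummer tower, 150-250 lines. File Pool/Agent/H57/BRA/Has.lean

Induction on `n`, over all `K, Ω, ρ, c` (the theorem quantifies over them after `n`; `R, e` fixed).
* `n = 0`: `Zk c` is everything.
* `n + 1`, `c (last n)` is a `p`-th power: `kk (c (last)) σ = 0` for all `σ` (`kk_eq_zero_iff`), so `Zk c = Zk (c ∘ castSucc)`; use the induction hypothesis for `c ∘ castSucc`.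
* `n + 1`, `c (last n)` not a `p`-th power: `L` from `bca_exists` (with `IsAlgClosure L Ω` from `bca_clo`), `ρ' = ρ.comp (rsK K L Ω)` (FT: `bca_ft`), `c' i = inc K L (c (castSucc i))`:
  `Prim` (`bc_prim` in GBase), `hζ'` = `GBase_zeta`, `MOne` = `mone_map`, `Z2` by `IsPrimitiveRoot.map_of_injective`. Local hypothesis for `w` of `L` not above `p`: `v` under `w` (`exists_below`), `above_over`; if all `c i` are `Spl` at `v`: `bcp_spl`;
  otherwise `bcp_lt` with `bcp_under`. `Kl (pb e ρ') (Zk c')`: `l ∘ rsK` (`bca_lev`), for `σ' ∈ Zk c'`: `kk (c i) (rsK σ') = 0` for all `i` by `bca_kk` and `bca_range`.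
  So `Tv (pb e ρ')` by induction; by `bca_lev'` and `bca_range`: `Kl (pb e ρ) {σ | kk (c last) σ = 0}`. `C2 (pb e ρ)` from `he`, `hρ` (`c2_pb`). By `bq`: `d` with
  `Tv (pb e ρ + cu (c last) d)`. Claim: `B v (c last) d = 0` for `v ∤ p`: if all `c i` are `Spl` at `v`, by definition of `Spl`; otherwise `π` with `ord v π = 1` (`exists_unif`),
  `Lv : LD` (`exists_LD`), `F` (`frob_univ`), `LT e ρ Lv.P`: `loc_one` gives `iv + B = 0`, and `iv = 0` by `LT` (`FrP Lv.P F` with `k = 1`: `Lv.under`, `nm v = absNorm`; `Lv.t` in the inertia group).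
  `glg_triv Ω hp hp2 hζ (c last) d` gives `Tv (cu (c last) d)`, so `Tv (pb e ρ)` (`tv_add`, `tv_smul (-1)`).
-/

set_option autoImplicit false

open scoped NumberField Pointwise
open IsDedekindDomain

noncomputable section

namespace H57.BRA

open H63.MA H38.BB H38.BG H57.PC

theorem c2_pb {K : Type} [Field K] {Ω : Type} [Field Ω] [Algebra K Ω] {p : ℕ} {R : Type} [Group R]
    {e : R → R → ZMod p} (he : Coc p e) {ρ : Gal(Ω/K) →* R} (hρ : H38.ML.FT ρ) :
    C2 (pb e ρ) := by
  obtain ⟨E, hE, hEk⟩ := hρ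
  refine ⟨fun a => ?_, fun a => ?_, fun a b c => ?_, E, hE, fun σ τ u hu => ?_⟩
  · unfold pb
    rw [map_one, he.l1]
  · unfold pb
    rw [map_one, he.r1]
  · unfold pb
    rw [map_mul, map_mul, he.co]
  · have h1 : ρ u = 1 := MonoidHom.mem_ker.1 (hEk hu)
    unfold pb
    rw [map_mul, map_mul, h1, mul_one, mul_one]
    exact ⟨rfl, rfl⟩

theorem z2_map {p : ℕ} {K : Type} [Field K] (h : Z2 p K) (L : Type) [Field L] [Algebra K L] :
    Z2 p L := by
  obtain ⟨z, hz⟩ := h
  exact ⟨algebraMap K L z, hz.map_of_injective (algebraMap K L).injective⟩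

theorem has {p : ℕ} (hp : p.Prime) {R : Type} [Group R] [Finite R] {e : R → R → ZMod p}
    (he : Coc p e) (n : ℕ) :
    ∀ (K : Type) [Field K] [NumberField K] (ζ : K) (_ : IsPrimitiveRoot ζ p) (_ : MOne p K)
      (_ : Z2 p K) (Ω : Type) [Field Ω] [Algebra K Ω] [IsAlgClosure K Ω] (ρ : Gal(Ω/K) →* R)
      (_ : H38.ML.FT ρ) (c : Fin n → Kˣ) (_ : ∀ i, Prim p (c i))
      (_ : ∀ v : Pl K, ¬ Above p v → (∀ i, Spl p ζ v (c i)) ∨
        ∀ P : Ideal (𝓞 Ω), P.IsPrime → P.under (𝓞 K) = v.asIdeal → LT e ρ P)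
      (_ : Kl (pb e ρ) (Zk p ζ c)), Tv (pb e ρ) := by
  induction n with
  | zero =>
    intro K _ _ ζ _ _ _ Ω _ _ _ ρ _ c _ _ hk
    obtain ⟨l, hl, h⟩ := hk
    exact ⟨l, hl, fun σ τ => h σ (fun i => i.elim0) τ (fun i => i.elim0)⟩
  | succ n ih =>
    intro K _ _ ζ hζ hp2 hz Ω _ _ _ ρ hρ c hcP hloc hk
    by_cases hpow : IsPow p (c (Fin.last n))
    · have h1 : ∀ σ : Gal(Ω/K), kk p ζ (c (Fin.last n)) σ = 0 := (kk_eq_zero_iff hp hζ _).2 hpow
      refine ih K ζ hζ hp2 hz Ω ρ hρ (fun i => c i.castSucc) (fun i => hcP _) ?_ ?_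
      · intro v hv
        rcases hloc v hv with h | h
        · exact Or.inl fun i => h _
        · exact Or.inr h
      · obtain ⟨l, hl, h⟩ := hk
        have hm : ∀ σ : Gal(Ω/K), σ ∈ Zk p ζ (fun i : Fin n => c i.castSucc) → σ ∈ Zk p ζ c := by
          intro σ hσ i
          refine Fin.lastCases ?_ ?_ i
          · exact h1 σ
          · intro j
            exact hσ j
        exact ⟨l, hl, fun σ hσ τ hτ => h σ (hm σ hσ) τ (hm τ hτ)⟩
    · obtain ⟨L, _, _, _, _, _, ⟨H⟩⟩ := bca_exists Ω hp hζ hpow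
      haveI : IsAlgClosure L Ω := bca_clo K L Ω
      have hT : Tv (pb e (ρ.comp (rsK K L Ω))) := by
        refine ih L (algebraMap K L ζ) (GBase_zeta hζ) (mone_map hp2 L) (z2_map hz L) Ω (ρ.comp (rsK K L Ω))
          (bca_ft hρ) (fun i => inc K L (c i.castSucc)) (fun i => bc_prim (hcP _)) ?_ ?_
        · intro w hw
          obtain ⟨v, hv⟩ := exists_below (K := K) w
          have hv' : ¬ Above p v := fun h => hw ((above_over hv p).2 h)
          rcases hloc v hv' with h | h
          · exact Or.inl fun i => bcp_spl hp hζ hv hv' (h i.castSucc)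
          · exact Or.inr fun P hP hPw => bcp_lt hv hPw (h P hP (bcp_under hv hPw))
        · obtain ⟨l, hl, h⟩ := hk
          have hm : ∀ σ : Gal(Ω/L), σ ∈ Zk p (algebraMap K L ζ)
              (fun i : Fin n => inc K L (c i.castSucc)) → rsK K L Ω σ ∈ Zk p ζ c := by
            intro σ hσ i
            refine Fin.lastCases ?_ ?_ i
            · exact (bca_range hp hζ H _).2 ⟨σ, rfl⟩
            · intro j
              rw [← bca_kk hp hζ]
              exact hσ j
          refine ⟨fun σ => l (rsK K L Ω σ), bca_lev hl, fun σ hσ τ hτ => ?_⟩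
          have h4 := h _ (hm σ hσ) _ (hm τ hτ)
          rw [← map_mul] at h4
          exact h4
      have hK : Kl (pb e ρ) {σ : Gal(Ω/K) | kk p ζ (c (Fin.last n)) σ = 0} := by
        obtain ⟨g, hg, hg2⟩ := hT
        obtain ⟨f, hf, hfg⟩ := bca_lev' (K := K) hg
        refine ⟨f, hf, fun σ hσ τ hτ => ?_⟩
        obtain ⟨σ', rfl⟩ := (bca_range hp hζ H σ).1 hσ
        obtain ⟨τ', rfl⟩ := (bca_range hp hζ H τ).1 hτ
        rw [← map_mul, hfg, hfg, hfg]
        exact hg2 σ' τ'
      obtain ⟨d, hd⟩ := bq hp hζ (c2_pb he hρ) hpow hK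
      have hB : ∀ v : Pl K, ¬ Above p v → B p ζ v (c (Fin.last n)) d = 0 := by
        intro v hv
        rcases hloc v hv with h | h
        · exact h (Fin.last n) d
        · obtain ⟨π, hπ⟩ := H63.MA.exists_unif v
          obtain ⟨Lv⟩ := exists_LD Ω hp hζ hv hπ
          obtain ⟨F, _, hF⟩ := frob_univ hp hζ hz hv hπ Lv
          have hLT := h Lv.P Lv.prime Lv.under
          have h1 := loc_one hp hp2 hζ he hρ (c (Fin.last n)) d hv hπ Lv hF hLT.1 hd
          have hFr : FrP Lv.P F := by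
            refine ⟨1, fun x => ?_⟩
            rw [Lv.under, pow_one]
            exact hF.1 x
          have h2 := (hLT.2 F hFr Lv.t Lv.ht).2
          rw [h2, zero_add] at h1
          exact h1
      have hcu := glg_triv Ω hp hp2 hζ (c (Fin.last n)) d (hcP _) hB
      have h3 := tv_add _ _ hd (tv_smul (-1) _ hcu)
      have e1 : (fun σ τ : Gal(Ω/K) => pb e ρ σ τ + cu p ζ (c (Fin.last n)) d σ τ +
          (-1) * cu p ζ (c (Fin.last n)) d σ τ) = pb e ρ := by
        funext σ τ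
        ring
      rw [e1] at h3
      exact h3

end H57.BRA
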