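import Pool.Agent.H57.BRA.Fro
import Pool.Agent.H57.BRA.Grp
import Pool.Agent.H63.MA.GHeis
import Pool.Agent.H63.MA.SymC

/-!
# [H57 BRA LOC] the local invariant of a trivial class, 120-200 lines. File Pool/Agent/H57/BRA/Loc.lean

`loc_mix`: if `e(ρ σ, ρ τ) + ∑ j, cu (A j) (C j) σ τ` is a coboundary of finite level, then `iv e (ρ F) (ρ t) + ∑ j, B_v (A j) (C j) = 0` (`v ∤ p`, `t` inertia generator, `F`
the Frobenius element of `IsFr`, tame condition at `L.P`).

Proof (compare `tv_loc` in Pool/Agent/H63/MA/GHeis.lean; here it is simpler, the self pairing is not needed because `IsFr` allows exponent `p ^ 2`). Let `l` be the function of finite level with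
`l (σ τ) = l σ + l τ + X σ τ`, `X` the total cocycle. Let `R' = R × (ι → ZMod p) × (ι → ZMod p)` (additive groups via Multiplicative) and
`e' (r, x, y) (r', x', y') = e r r' + ∑ j, x j * y' j`: `Coc p e'`; `φ σ = ⟨(ρ σ, kk (A j) σ, kk (C j) σ), l σ⟩` is a homomorphism `Γ → Xt e' _` of finite type (finite group: `Xt` is equivalent to
`R' × ZMod p`; finite level as in `gheis_hom_ft`). Alternatively use a structure with fields `r, x, y, z` and its own group instance.
For `τ` in the inertia group `φ τ ^ p` has first coordinates `(ρ τ ^ p, p x, p y) = 1` (`htm`), so it is `⟨1, z⟩` and `φ τ ^ (p ^ 2) = ⟨1, z⟩ ^ p = ⟨1, p z⟩ = 1` (`pw_lift` or induction).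
`hF.2.2` for `φ`: `φ F` and `φ t` commute. The last coordinates: `X F t = X t F`, i.e. `iv e (ρ F) (ρ t) + ∑ j, (kk (A j) F * kk (C j) t - kk (A j) t * kk (C j) F) = 0`, and
`kk (A j) F = lgv (A j)`, `kk (C j) t = ord v (C j)` (`ld_kk_t`), which is `∑ j, B_v (A j) (C j)` by `b_eq`.
-/

set_option autoImplicit false

open scoped NumberField Pointwise
open IsDedekindDomain

noncomputable section

namespace H57.BRA

open H63.MA H38.BB H38.BG H57.PC

variable {K : Type} [Field K] [NumberField K] {Ω : Type} [Field Ω] [Algebra K Ω] [IsAlgClosure K Ω]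
  {p : ℕ} {ζ : K}

/-- the group of the coordinates -/
private abbrev LcR (p : ℕ) (R ι : Type) : Type :=
  R × (Multiplicative (ι → ZMod p) × Multiplicative (ι → ZMod p))

/-- the cocycle -/
private def lcE {R : Type} (e : R → R → ZMod p) (ι : Type) [Fintype ι] (a b : LcR p R ι) : ZMod p :=
  e a.1 b.1 + ∑ j, Multiplicative.toAdd a.2.1 j * Multiplicative.toAdd b.2.2 j

private theorem lc_coc {R : Type} [Group R] {e : R → R → ZMod p} (he : Coc p e) (ι : Type)
    [Fintype ι] : Coc p (lcE e ι) where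
  l1 a := by
    unfold lcE
    rw [Prod.fst_one, he.l1, zero_add]
    refine Finset.sum_eq_zero fun j _ => ?_
    change (0 : ZMod p) * _ = 0
    rw [zero_mul]
  r1 a := by
    unfold lcE
    rw [Prod.fst_one, he.r1, zero_add]
    refine Finset.sum_eq_zero fun j _ => ?_
    change _ * (0 : ZMod p) = 0
    rw [mul_zero]
  co a b c := by
    unfold lcE
    have h1 := he.co a.1 b.1 c.1
    have h2 : ∑ j, Multiplicative.toAdd a.2.1 j * Multiplicative.toAdd (b * c).2.2 j =
        ∑ j, Multiplicative.toAdd a.2.1 j * Multiplicative.toAdd b.2.2 j +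
          ∑ j, Multiplicative.toAdd a.2.1 j * Multiplicative.toAdd c.2.2 j := by
      rw [← Finset.sum_add_distrib]
      refine Finset.sum_congr rfl fun j _ => ?_
      change _ * (Multiplicative.toAdd b.2.2 j + Multiplicative.toAdd c.2.2 j) = _
      ring
    have h3 : ∑ j, Multiplicative.toAdd (a * b).2.1 j * Multiplicative.toAdd c.2.2 j =
        ∑ j, Multiplicative.toAdd a.2.1 j * Multiplicative.toAdd c.2.2 j +
          ∑ j, Multiplicative.toAdd b.2.1 j * Multiplicative.toAdd c.2.2 j := by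
      rw [← Finset.sum_add_distrib]
      refine Finset.sum_congr rfl fun j _ => ?_
      change (Multiplicative.toAdd a.2.1 j + Multiplicative.toAdd b.2.1 j) * _ = _
      ring
    rw [h2, h3]
    change _ + (e a.1 (b.1 * c.1) + _) = e (a.1 * b.1) c.1 + _ + _
    linear_combination h1

private theorem lc_finite {R : Type} [Group R] [Finite R] {e : R → R → ZMod p} (he : Coc p e)
    (ι : Type) [Fintype ι] [NeZero p] : Finite (Xt (lcE e ι) (lc_coc he ι)) := by
  have h1 : Finite (Multiplicative (ι → ZMod p)) := inferInstanceAs (Finite (ι → ZMod p))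
  let f : Xt (lcE e ι) (lc_coc he ι) → LcR p R ι × ZMod p := fun g => (g.r, g.z)
  apply Finite.of_injective f
  intro g h hgh
  exact Xt.ext (congrArg Prod.fst hgh) (congrArg Prod.snd hgh)

/-- the homomorphism -/
private def lc_hom {R : Type} [Group R] {e : R → R → ZMod p} (he : Coc p e) (ρ : Gal(Ω/K) →* R)
    (ζ : K) {ι : Type} [Fintype ι] (A C : ι → Kˣ) (l : Gal(Ω/K) → ZMod p)
    (hl : ∀ σ τ, l (σ * τ) = l σ + l τ + (pb e ρ σ τ + ∑ j, cu p ζ (A j) (C j) σ τ)) :
    Gal(Ω/K) →* Xt (lcE e ι) (lc_coc he ι) :=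
  MonoidHom.mk' (fun σ => ⟨(ρ σ, Multiplicative.ofAdd (fun j => kk p ζ (A j) σ),
    Multiplicative.ofAdd (fun j => kk p ζ (C j) σ)), l σ⟩) (by
    intro σ τ
    rw [xt_mul]
    apply Xt.ext
    · apply Prod.ext
      · exact map_mul ρ σ τ
      · apply Prod.ext
        · apply Multiplicative.toAdd.injective
          funext j
          exact kk_mul _ _ _
        · apply Multiplicative.toAdd.injective
          funext j
          exact kk_mul _ _ _
    · exact hl σ τ)

private theorem lc_hom_ft (hp : p.Prime) (hζ : IsPrimitiveRoot ζ p) {R : Type} [Group R]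
    {e : R → R → ZMod p} (he : Coc p e) {ρ : Gal(Ω/K) →* R} (hρ : H38.ML.FT ρ) {ι : Type}
    [Fintype ι] (A C : ι → Kˣ) (l : Gal(Ω/K) → ZMod p)
    (hl : ∀ σ τ, l (σ * τ) = l σ + l τ + (pb e ρ σ τ + ∑ j, cu p ζ (A j) (C j) σ τ))
    (hL : Lev l) : H38.ML.FT (lc_hom he ρ ζ A C l hl) := by
  obtain ⟨E, hE, hE'⟩ := hL
  obtain ⟨E0, hE0, hE0'⟩ := hρ
  have hA := fun j => (kc_is (Ω := Ω) hp hζ (A j)).1
  have hC := fun j => (kc_is (Ω := Ω) hp hζ (C j)).1
  choose EA hEA hEA' using hA
  choose EC hEC hEC' using hC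
  have hl1 : l 1 = 0 := by
    have h1 := hl 1 1
    have h2 : ∑ j, cu p ζ (A j) (C j) (1 : Gal(Ω/K)) 1 = 0 := by
      refine Finset.sum_eq_zero fun j _ => ?_
      unfold cu
      rw [kk_one, zero_mul]
    have h3 : pb e ρ (1 : Gal(Ω/K)) 1 = 0 := by
      unfold pb
      rw [map_one, he.l1]
    rw [h2, h3, mul_one, add_zero, add_zero] at h1
    exact (left_eq_add.1 h1)
  refine ⟨(E ⊔ E0) ⊔ ((⨆ j, EA j) ⊔ (⨆ j, EC j)), ?_, ?_⟩
  · have h1 : FiniteDimensional K ↥(⨆ j, EA j) :=
      IntermediateField.finiteDimensional_iSup_of_finite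
    have h2 : FiniteDimensional K ↥(⨆ j, EC j) :=
      IntermediateField.finiteDimensional_iSup_of_finite
    have h3 : FiniteDimensional K ↥((⨆ j, EA j) ⊔ (⨆ j, EC j)) :=
      IntermediateField.finiteDimensional_sup _ _
    have h4 : FiniteDimensional K ↥(E ⊔ E0) := IntermediateField.finiteDimensional_sup _ _
    exact IntermediateField.finiteDimensional_sup _ _
  · intro u hu
    have hu1 : u ∈ E.fixingSubgroup :=
      IntermediateField.fixingSubgroup_antitone (le_sup_left.trans le_sup_left) hu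
    have hu0 : u ∈ E0.fixingSubgroup :=
      IntermediateField.fixingSubgroup_antitone (le_sup_right.trans le_sup_left) hu
    have huA : ∀ j, u ∈ (EA j).fixingSubgroup := fun j =>
      IntermediateField.fixingSubgroup_antitone
        ((le_iSup EA j).trans (le_sup_left.trans le_sup_right)) hu
    have huC : ∀ j, u ∈ (EC j).fixingSubgroup := fun j =>
      IntermediateField.fixingSubgroup_antitone
        ((le_iSup EC j).trans (le_sup_right.trans le_sup_right)) hu
    rw [MonoidHom.mem_ker]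
    apply Xt.ext
    · apply Prod.ext
      · exact hE0' hu0
      · apply Prod.ext
        · apply Multiplicative.toAdd.injective
          funext j
          have h1 := hEA' j (huA j)
          rw [MonoidHom.mem_ker] at h1
          change kk p ζ (A j) u = 0
          unfold kk
          rw [h1]
          rfl
        · apply Multiplicative.toAdd.injective
          funext j
          have h1 := hEC' j (huC j)
          rw [MonoidHom.mem_ker] at h1
          change kk p ζ (C j) u = 0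
          unfold kk
          rw [h1]
          rfl
    · change l u = 0
      have h1 := hE' 1 u hu1
      rw [one_mul] at h1
      rw [h1, hl1]

private theorem lc_exp {R : Type} [Group R] {e : R → R → ZMod p} (he : Coc p e) {ι : Type}
    [Fintype ι] (g : Xt (lcE e ι) (lc_coc he ι)) (h1 : g.r.1 ^ p = 1) : g ^ (p ^ 2) = 1 := by
  have h4 := pw_lift (lc_coc he ι) g.r g.z p
  have h5 : (⟨g.r, g.z⟩ : Xt (lcE e ι) (lc_coc he ι)) = g := rfl
  rw [h5] at h4
  have hz : ∀ x : Multiplicative (ι → ZMod p), x ^ p = 1 := by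
    intro x
    apply Multiplicative.toAdd.injective
    funext j
    change (p • Multiplicative.toAdd x) j = 0
    rw [Pi.smul_apply, nsmul_eq_mul, CharP.cast_eq_zero, zero_mul]
  have h6 : g.r ^ p = 1 := by
    apply Prod.ext
    · exact h1
    · apply Prod.ext
      · exact hz _
      · exact hz _
  rw [pow_two, pow_mul, h4, h6, pw_lift (lc_coc he ι)]
  apply Xt.ext
  · exact one_pow p
  · change (p : ZMod p) * _ + _ = 0
    rw [CharP.cast_eq_zero, zero_mul, zero_add]
    exact Finset.sum_eq_zero fun k _ => by rw [one_pow, (lc_coc he ι).l1]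

private theorem lc_zero (hp : p.Prime) (hζ : IsPrimitiveRoot ζ p) {R : Type} [Group R]
    [Finite R] {e : R → R → ZMod p} (he : Coc p e) {ρ : Gal(Ω/K) →* R} (hρ : H38.ML.FT ρ)
    {ι : Type} [Fintype ι] (A C : ι → Kˣ) {v : Pl K} (hv : ¬ Above p v) {π : Kˣ}
    (hπ : ord v π = 1) (L : LD p ζ Ω v π) {F : Gal(Ω/K)} (hF : IsFr L F) (htm : Tm e ρ L.P)
    (h : Tv (fun σ τ : Gal(Ω/K) => pb e ρ σ τ + ∑ j, cu p ζ (A j) (C j) σ τ)) :
    iv e (ρ F) (ρ L.t) + ∑ j, B p ζ v (A j) (C j) = 0 := by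
  have hne : NeZero p := ⟨hp.ne_zero⟩
  obtain ⟨l, hL, hl⟩ := h
  have hfin := lc_finite he ι
  have hcomm := hF.2.2 (Xt (lcE e ι) (lc_coc he ι)) (lc_hom he ρ ζ A C l hl)
    (lc_hom_ft hp hζ he hρ A C l hl hL) (by
      intro τ hτ
      exact lc_exp he _ (htm τ hτ))
  have h2 : l F + l L.t + (e (ρ F) (ρ L.t) + ∑ j, kk p ζ (A j) F * kk p ζ (C j) L.t) =
      l L.t + l F + (e (ρ L.t) (ρ F) + ∑ j, kk p ζ (A j) L.t * kk p ζ (C j) F) :=
    congrArg Xt.z hcomm
  have h4 : ∑ j, B p ζ v (A j) (C j) =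
      ∑ j, kk p ζ (A j) F * kk p ζ (C j) L.t - ∑ j, kk p ζ (A j) L.t * kk p ζ (C j) F := by
    rw [← Finset.sum_sub_distrib]
    refine Finset.sum_congr rfl fun j _ => ?_
    rw [b_eq hp hζ hv hπ, hF.2.1, hF.2.1, ld_kk_t hp hζ hv hπ L, ld_kk_t hp hζ hv hπ L]
  rw [h4]
  unfold iv
  linear_combination h2

theorem loc_mix (hp : p.Prime) (_hp2 : MOne p K) (hζ : IsPrimitiveRoot ζ p) {R : Type} [Group R]
    [Finite R] {e : R → R → ZMod p} (he : Coc p e) {ρ : Gal(Ω/K) →* R} (hρ : H38.ML.FT ρ)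
    {ι : Type} [Fintype ι] (A C : ι → Kˣ) {v : Pl K} (hv : ¬ Above p v) {π : Kˣ}
    (hπ : ord v π = 1) (L : LD p ζ Ω v π) {F : Gal(Ω/K)} (hF : IsFr L F) (htm : Tm e ρ L.P)
    (h : Tv (fun σ τ : Gal(Ω/K) => pb e ρ σ τ + ∑ j, cu p ζ (A j) (C j) σ τ)) :
    iv e (ρ F) (ρ L.t) + ∑ j, B p ζ v (A j) (C j) = 0 := by
  exact lc_zero hp hζ he hρ A C hv hπ L hF htm h

/-- the case of one pair -/
theorem loc_one (hp : p.Prime) (hp2 : MOne p K) (hζ : IsPrimitiveRoot ζ p) {R : Type} [Group R]
    [Finite R] {e : R → R → ZMod p} (he : Coc p e) {ρ : Gal(Ω/K) →* R} (hρ : H38.ML.FT ρ)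
    (a b : Kˣ) {v : Pl K} (hv : ¬ Above p v) {π : Kˣ}
    (hπ : ord v π = 1) (L : LD p ζ Ω v π) {F : Gal(Ω/K)} (hF : IsFr L F) (htm : Tm e ρ L.P)
    (h : Tv (fun σ τ : Gal(Ω/K) => pb e ρ σ τ + cu p ζ a b σ τ)) :
    iv e (ρ F) (ρ L.t) + B p ζ v a b = 0 := by
  have h1 := loc_mix hp hp2 hζ he hρ (fun _ : Unit => a) (fun _ : Unit => b) hv hπ L hF htm
    (by simpa only [Finset.univ_unique, Finset.sum_singleton] using h)
  simpa only [Finset.univ_unique, Finset.sum_singleton] using h1

end H57.BRA
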